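import Pool.Agent.Lib.MP_80aaf5_lc.Defs

/-!
# Subexponential functions; countability of machines; the diagonalization
-/

namespace ESY

open Filter

/-- a single function is subexponential -/
def Sub (g : ℕ → ℕ) : Prop := ∀ k : ℕ, ∀ᶠ n in atTop, g n ^ k ≤ 2 ^ n

theorem sub_id : Sub (fun n => n) := by
  intro k
  have h := isLittleO_pow_const_const_pow_of_one_lt (R := ℝ) k (r := 2) (by norm_num)
  have h1 := h.bound (c := 1) (by norm_num)
  filter_upwards [h1] with n hn
  simp only [norm_pow, Real.norm_natCast, one_mul, Real.norm_ofNat] at hn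
  exact_mod_cast hn

theorem sub_const (c : ℕ) : Sub (fun _ => c) := by
  intro k
  filter_upwards [eventually_ge_atTop (c ^ k)] with n hn
  exact hn.trans (Nat.lt_two_pow_self).le

theorem sub_add {g h : ℕ → ℕ} (hg : Sub g) (hh : Sub h) : Sub (fun n => g n + h n) := by
  intro k
  filter_upwards [hg (2 * k), hh (2 * k), eventually_ge_atTop (2 * k)] with n h1 h2 h3
  have h4 : g n + h n ≤ 2 * max (g n) (h n) := by
    have := le_max_left (g n) (h n)
    have := le_max_right (g n) (h n)
    omega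
  have h5 : (max (g n) (h n)) ^ (2 * k) ≤ 2 ^ n := by
    rcases le_total (g n) (h n) with hle | hle
    · rw [max_eq_right hle]; exact h2
    · rw [max_eq_left hle]; exact h1
  have h6 : ((g n + h n) ^ k) ^ 2 ≤ (2 ^ n) ^ 2 := by
    calc ((g n + h n) ^ k) ^ 2 = (g n + h n) ^ (2 * k) := by rw [← pow_mul, mul_comm]
      _ ≤ (2 * max (g n) (h n)) ^ (2 * k) := Nat.pow_le_pow_left h4 _
      _ = 2 ^ (2 * k) * (max (g n) (h n)) ^ (2 * k) := mul_pow _ _ _
      _ ≤ 2 ^ n * 2 ^ n := Nat.mul_le_mul (Nat.pow_le_pow_right (by norm_num) h3) h5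
      _ = (2 ^ n) ^ 2 := by ring
  exact (Nat.pow_le_pow_iff_left (by norm_num)).1 h6

theorem sub_mul {g h : ℕ → ℕ} (hg : Sub g) (hh : Sub h) : Sub (fun n => g n * h n) := by
  intro k
  filter_upwards [hg (2 * k), hh (2 * k)] with n h1 h2
  have h6 : ((g n * h n) ^ k) ^ 2 ≤ (2 ^ n) ^ 2 := by
    calc ((g n * h n) ^ k) ^ 2 = (g n) ^ (2 * k) * (h n) ^ (2 * k) := by
          rw [← mul_pow, ← pow_mul, mul_comm k 2]
      _ ≤ 2 ^ n * 2 ^ n := Nat.mul_le_mul h1 h2
      _ = (2 ^ n) ^ 2 := by ring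
  exact (Nat.pow_le_pow_iff_left (by norm_num)).1 h6

theorem sub_pow {g : ℕ → ℕ} (hg : Sub g) (m : ℕ) : Sub (fun n => g n ^ m) := by
  intro k
  filter_upwards [hg (m * k)] with n h
  rwa [← pow_mul]

theorem sub_poly {g : ℕ → ℕ} (hg : Sub g) (c : ℕ) : Sub (fun n => poly c (g n)) :=
  sub_add (sub_pow hg c) (sub_const c)

theorem subexponential_poly : Subexponential poly := fun c k => sub_poly sub_id c k

/-! ### countability -/

instance (k q : ℕ) : Countable (Instr k q) := by
  let f : Instr k q → ℕ × ℕ × ℕ × ℕ × ℕ × Bool := fun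
    | .push i b n => (0, i, n, 0, 0, b)
    | .pop i a b c => (1, i, a, b, c, false)
    | .query i a b => (2, i, a, b, 0, false)
    | .halt b => (3, 0, 0, 0, 0, b)
  refine (show Function.Injective f from ?_).countable
  intro x y h
  cases x <;> cases y <;> simp_all [f, _root_.Fin.ext_iff]

instance : Countable Machine := by
  let f : Machine → Σ k : ℕ, Σ q : ℕ, (_root_.Fin (q + 1) → Instr (k + 2) (q + 1)) :=
    fun M => ⟨M.k, M.q, M.code⟩
  refine (show Function.Injective f from ?_).countable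
  rintro ⟨k, q, c⟩ ⟨k', q', c'⟩ h
  simp only [f] at h
  cases h
  rfl

/-! ### the diagonalization -/

/-- If for every separator one of countably many deciders works, then one decider works for all
separators that agree with a fixed one on a fixed finite set. -/
theorem diag {ι : Type} [Countable ι] (A B : Set (List Bool)) (hAB : Disjoint A B)
    (D : ι → Oracle → Prop)
    (hloc : ∀ i S, ¬ D i S → ∃ F : Finset (List Bool), ∀ S' : Oracle,
      (∀ x ∈ F, S' x = S x) → ¬ D i S')
    (h : ∀ S, Separator A B S → ∃ i, D i S) :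
    ∃ (i : ι) (S₀ : Oracle) (F : Finset (List Bool)), Separator A B S₀ ∧
      ∀ S, Separator A B S → (∀ x ∈ F, S x = S₀ x) → D i S := by
  classical
  by_contra hcon
  push Not at hcon
  let S0 : Oracle := fun x => decide (x ∈ A)
  have hS0 : Separator A B S0 := by
    refine ⟨fun x hx => by simp [S0, hx], fun x hx => ?_⟩
    have : x ∉ A := fun hxA => Set.disjoint_left.1 hAB hxA hx
    simp [S0, this]
  obtain ⟨i0, -⟩ := h S0 hS0
  have : Nonempty ι := ⟨i0⟩
  obtain ⟨e, he⟩ := exists_surjective_nat ι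
  have step : ∀ (i : ι) (p : Oracle × Finset (List Bool)), ∃ p' : Oracle × Finset (List Bool),
      Separator A B p.1 → Separator A B p'.1 ∧ (∀ x ∈ p.2, p'.1 x = p.1 x) ∧ p.2 ⊆ p'.2 ∧
        ∀ S' : Oracle, (∀ x ∈ p'.2, S' x = p'.1 x) → ¬ D i S' := by
    rintro i ⟨S, F⟩
    by_cases hS : Separator A B S
    · obtain ⟨S', hS', hag, hD⟩ := hcon i S F hS
      obtain ⟨G, hG⟩ := hloc i S' hD
      refine ⟨(S', F ∪ G), fun _ => ⟨hS', hag, Finset.subset_union_left, fun S'' h'' => ?_⟩⟩
      exact hG S'' fun x hx => h'' x (Finset.mem_union_right _ hx)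
    · exact ⟨(S, F), fun h' => absurd h' hS⟩
  choose nxt hnxt using step
  let seq : ℕ → Oracle × Finset (List Bool) := fun k => Nat.rec (S0, ∅) (fun k p => nxt (e k) p) k
  have hseq : ∀ k, seq (k + 1) = nxt (e k) (seq k) := fun k => rfl
  have hsep : ∀ k, Separator A B (seq k).1 := by
    intro k
    induction k with
    | zero => exact hS0
    | succ k ih =>
      rw [hseq]
      exact (hnxt (e k) (seq k) ih).1
  have hsub : ∀ k, (seq k).2 ⊆ (seq (k + 1)).2 := fun k => (hnxt (e k) (seq k) (hsep k)).2.2.1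
  have hag : ∀ k, ∀ x ∈ (seq k).2, (seq (k + 1)).1 x = (seq k).1 x :=
    fun k => (hnxt (e k) (seq k) (hsep k)).2.1
  have hag' : ∀ j k, j ≤ k → ∀ x ∈ (seq j).2, x ∈ (seq k).2 ∧ (seq k).1 x = (seq j).1 x := by
    intro j k hjk
    induction k, hjk using Nat.le_induction with
    | base => exact fun x hx => ⟨hx, rfl⟩
    | succ k _ ih =>
      intro x hx
      obtain ⟨h1, h2⟩ := ih x hx
      exact ⟨hsub k h1, (hag k x h1).trans h2⟩
  let Sω : Oracle := fun x => if h : ∃ k, x ∈ (seq k).2 then (seq (Nat.find h)).1 x else S0 x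
  have hSω : Separator A B Sω := by
    constructor
    · intro x hx
      by_cases h : ∃ k, x ∈ (seq k).2
      · simp only [Sω, h, dite_true]
        exact (hsep _).1 x hx
      · simp only [Sω, h, dite_false]
        exact hS0.1 x hx
    · intro x hx
      by_cases h : ∃ k, x ∈ (seq k).2
      · simp only [Sω, h, dite_true]
        exact (hsep _).2 x hx
      · simp only [Sω, h, dite_false]
        exact hS0.2 x hx
  have hω : ∀ k, ∀ x ∈ (seq k).2, Sω x = (seq k).1 x := by
    intro k x hx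
    have h : ∃ k, x ∈ (seq k).2 := ⟨k, hx⟩
    simp only [Sω, h, dite_true]
    exact ((hag' (Nat.find h) k (Nat.find_min' h hx) x (Nat.find_spec h)).2).symm
  obtain ⟨i, hi⟩ := h Sω hSω
  obtain ⟨k, rfl⟩ := he i
  exact (hnxt (e k) (seq k) (hsep k)).2.2.2 Sω (hω (k + 1)) hi

end ESY
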