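import Pool.Agent.Lib.MP_80aaf5_lc.Plant

/-!
# The combinatorial core: many double plantings create an intersection
-/

set_option linter.unusedSectionVars false

namespace ESY.Fin

/-- the finite situation -/
structure Game (I Z W J Q : Type) where
  b : Z → W → J → I
  hb : ∀ z z' y y' j j', b z y j = b z' y' j' → z = z' ∧ y = y' ∧ j = j'
  A : (I → Bool) → Q → Prop
  B : (I → Bool) → Q → Prop
  M : (I → Bool) → (Q → Bool) → Z → Prop
  c : ℕ
  locA : ∀ ω q, A ω q → ∃ F : Finset I, F.card ≤ c ∧ ∀ ω', (∀ i ∈ F, ω' i = ω i) → A ω' q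
  locB : ∀ ω q, B ω q → ∃ F : Finset I, F.card ≤ c ∧ ∀ ω', (∀ i ∈ F, ω' i = ω i) → B ω' q
  locM : ∀ ω T z, M ω T z → ∃ (F : Finset I) (G : Finset Q), F.card ≤ c ∧ G.card ≤ c ∧
    ∀ ω' T', (∀ i ∈ F, ω' i = ω i) → (∀ q ∈ G, T' q = T q) → M ω' T' z

namespace Game

variable {I Z W J Q : Type} [Finite I] [Finite Z] [Finite W] [Finite J] (g : Game I Z W J Q)

/-- the pair is disjoint and the reduction works -/
def Good (ω : I → Bool) : Prop :=
  (∀ q, ¬ (g.A ω q ∧ g.B ω q)) ∧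
    ∀ T : Q → Bool, (∀ q, g.A ω q → T q = true) → (∀ q, g.B ω q → T q = false) →
      ∀ z, (g.M ω T z ↔ NoWit (g.b z) ω)

/-- the pair is not disjoint -/
def Bad (ω : I → Bool) : Prop := ∃ q, g.A ω q ∧ g.B ω q

theorem injb (z : Z) : Inj (g.b z) := fun _ _ _ _ h =>
  ⟨(g.hb _ _ _ _ _ _ h).2.1, (g.hb _ _ _ _ _ _ h).2.2⟩

/-- the key inconsistency -/
theorem incons {z : Z} {ω : I → Bool} (T : Q → Bool) (F : Finset I) (G : Finset Q)
    (hloc : ∀ ω' T', (∀ i ∈ F, ω' i = ω i) → (∀ q ∈ G, T' q = T q) → g.M ω' T' z) (y : W) (hy : g.Good (plant (g.b z) y ω))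
    (hF : ¬ ∃ i ∈ F, ∃ j, g.b z y j = i) :
    ∃ q ∈ G, (g.A (plant (g.b z) y ω) q ∧ T q = false) ∨
      (g.B (plant (g.b z) y ω) q ∧ T q = true) := by
  classical
  by_contra hcon
  push Not at hcon
  set ω' := plant (g.b z) y ω with hω'
  let T' : Q → Bool := fun q => if q ∈ G then T q else decide (g.A ω' q)
  have h1 : ∀ q, g.A ω' q → T' q = true := by
    intro q hq
    by_cases hqG : q ∈ G
    · have := (hcon q hqG).1 hq
      simp only [T', hqG, if_true]
      simpa using this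
    · simp only [T', hqG, if_false, hq, decide_true]
  have h2 : ∀ q, g.B ω' q → T' q = false := by
    intro q hq
    by_cases hqG : q ∈ G
    · have := (hcon q hqG).2 hq
      simp only [T', hqG, if_true]
      simpa using this
    · simp only [T', hqG, if_false]
      have : ¬ g.A ω' q := fun ha => hy.1 q ⟨ha, hq⟩
      simp [this]
  have h3 : g.M ω' T' z :=
    hloc ω' T' (plant_agree hF ω) fun q hq => by simp only [T', hq, if_true]
  exact (hy.2 T' h1 h2 z).1 h3 y (wit_plant (g.b z) y ω)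

/-- Many pairs of plantings make the pair intersect. -/
theorem core {z : Z} {ω : I → Bool} (hN : NoWit (g.b z) ω) (hG : g.Good ω)
    (hc : 1 ≤ g.c) (hbig : 16 * (g.c : ℝ) ^ 2 ≤ Nat.card W)
    (hY : (Nat.card W : ℝ) ≤ 2 * cnt (fun y => g.Good (plant (g.b z) y ω))) :
    (Nat.card W : ℝ) ^ 2 ≤ 32 * (g.c : ℝ) ^ 2 *
      cnt (fun p : W × W => p.1 ≠ p.2 ∧ g.Bad (plant (g.b z) p.1 (plant (g.b z) p.2 ω))) := by
  classical
  set N : ℝ := (Nat.card W : ℝ) with hNdef
  set c : ℝ := (g.c : ℝ) with hcdef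
  have hc1 : (1 : ℝ) ≤ c := Nat.one_le_cast.2 hc
  have hNc : 16 * c ≤ N := by nlinarith
  let a : Q → ℕ := fun q => cnt (fun y => g.Good (plant (g.b z) y ω) ∧ g.A (plant (g.b z) y ω) q)
  let b : Q → ℕ := fun q => cnt (fun y => g.Good (plant (g.b z) y ω) ∧ g.B (plant (g.b z) y ω) q)
  let T : Q → Bool := fun q => if g.A ω q then true else if g.B ω q then false
    else decide (b q ≤ a q)
  have hTA : ∀ q, g.A ω q → T q = true := fun q hq => by simp only [T, hq, if_true]
  have hTB : ∀ q, g.B ω q → T q = false := fun q hq => by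
    have : ¬ g.A ω q := fun ha => hG.1 q ⟨ha, hq⟩
    simp only [T, this, if_false, hq, if_true]
  obtain ⟨F, G, hF, hGc, hloc⟩ := g.locM ω T z ((hG.2 T hTA hTB z).2 hN)
  -- the inconsistent y
  let inc : Q → W → Prop := fun q y => g.Good (plant (g.b z) y ω) ∧
    ((g.A (plant (g.b z) y ω) q ∧ T q = false) ∨ (g.B (plant (g.b z) y ω) q ∧ T q = true))
  have hex : ∃ q ∈ G, N / (4 * c) < cnt (inc q) := by
    by_contra hcon
    push Not at hcon
    have h1 := cnt_exists_le G inc (N / (4 * c)) hcon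
    have h2 := touch (g.injb z) F
    have h3 : cnt (fun y => g.Good (plant (g.b z) y ω)) ≤
        cnt (fun y => ∃ q ∈ G, inc q y) + cnt (fun y => ∃ i ∈ F, ∃ j, g.b z y j = i) := by
      refine le_trans (cnt_mono fun y hy => ?_) (cnt_or _ _)
      by_cases hyF : ∃ i ∈ F, ∃ j, g.b z y j = i
      · exact Or.inr hyF
      · left
        obtain ⟨q, hq, hh⟩ := g.incons T F G hloc y hy hyF
        exact ⟨q, hq, hy, hh⟩
    have h3' : (cnt (fun y => g.Good (plant (g.b z) y ω)) : ℝ) ≤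
        cnt (fun y => ∃ q ∈ G, inc q y) + cnt (fun y => ∃ i ∈ F, ∃ j, g.b z y j = i) := by
      exact_mod_cast h3
    have h4 : (F.card : ℝ) ≤ c := Nat.cast_le.2 hF
    have h5 : (G.card : ℝ) ≤ c := Nat.cast_le.2 hGc
    have h6 : (G.card : ℝ) * (N / (4 * c)) ≤ c * (N / (4 * c)) := by
      refine mul_le_mul_of_nonneg_right h5 ?_
      positivity
    have h7 : c * (N / (4 * c)) = N / 4 := by
      field_simp
    nlinarith
  obtain ⟨q, hqG, hq⟩ := hex
  have h4c : 4 * c ≤ N / (4 * c) := by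
    rw [le_div_iff₀ (by positivity)]
    nlinarith
  have hnA : ¬ g.A ω q := by
    intro hA
    obtain ⟨C, hC, hCl⟩ := g.locA ω q hA
    have h1 : cnt (inc q) ≤ cnt (fun y => ∃ i ∈ C, ∃ j, g.b z y j = i) := by
      refine cnt_mono fun y hy => ?_
      by_contra hyC
      have h2 := hCl _ (plant_agree hyC ω)
      rcases hy.2 with h | h
      · have := hTA q hA
        rw [h.2] at this
        exact absurd this (by decide)
      · exact hy.1.1 q ⟨h2, h.1⟩
    have h2 := touch (g.injb z) C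
    have h3 : (C.card : ℝ) ≤ c := Nat.cast_le.2 hC
    have h4 : (cnt (inc q) : ℝ) ≤ cnt (fun y => ∃ i ∈ C, ∃ j, g.b z y j = i) := by
      exact_mod_cast h1
    linarith
  have hnB : ¬ g.B ω q := by
    intro hB
    obtain ⟨C, hC, hCl⟩ := g.locB ω q hB
    have h1 : cnt (inc q) ≤ cnt (fun y => ∃ i ∈ C, ∃ j, g.b z y j = i) := by
      refine cnt_mono fun y hy => ?_
      by_contra hyC
      have h2 := hCl _ (plant_agree hyC ω)
      rcases hy.2 with h | h
      · exact hy.1.1 q ⟨h.1, h2⟩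
      · have := hTB q hB
        rw [h.2] at this
        exact absurd this (by decide)
    have h2 := touch (g.injb z) C
    have h3 : (C.card : ℝ) ≤ c := Nat.cast_le.2 hC
    have h4 : (cnt (inc q) : ℝ) ≤ cnt (fun y => ∃ i ∈ C, ∃ j, g.b z y j = i) := by
      exact_mod_cast h1
    linarith
  have hTq : T q = decide (b q ≤ a q) := by simp only [T, hnA, hnB, if_false]
  have hab : N / (4 * c) < a q ∧ N / (4 * c) < b q := by
    by_cases hle : b q ≤ a q
    · have hT1 : T q = true := by rw [hTq]; simpa using hle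
      have h1 : cnt (inc q) ≤ b q := cnt_mono fun y hy => ⟨hy.1, by
        rcases hy.2 with h | h
        · rw [hT1] at h
          exact absurd h.2 (by decide)
        · exact h.1⟩
      have h2 : (cnt (inc q) : ℝ) ≤ b q := by exact_mod_cast h1
      have h3 : (b q : ℝ) ≤ a q := by exact_mod_cast hle
      exact ⟨by linarith, by linarith⟩
    · have hT1 : T q = false := by rw [hTq]; simpa using hle
      have h1 : cnt (inc q) ≤ a q := cnt_mono fun y hy => ⟨hy.1, by
        rcases hy.2 with h | h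
        · exact h.1
        · rw [hT1] at h
          exact absurd h.2 (by decide)⟩
      have h2 : (cnt (inc q) : ℝ) ≤ a q := by exact_mod_cast h1
      have h3 : (a q : ℝ) ≤ b q := by exact_mod_cast (not_le.1 hle).le
      exact ⟨by linarith, by linarith⟩
  -- certificates
  have hCA : ∀ y, ∃ C : Finset I, C.card ≤ g.c ∧ (g.A (plant (g.b z) y ω) q →
      ∀ ω', (∀ i ∈ C, ω' i = plant (g.b z) y ω i) → g.A ω' q) := by
    intro y
    by_cases h : g.A (plant (g.b z) y ω) q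
    · obtain ⟨C, h1, h2⟩ := g.locA _ q h
      exact ⟨C, h1, fun _ => h2⟩
    · exact ⟨∅, by simp, fun h' => absurd h' h⟩
  have hCB : ∀ y, ∃ C : Finset I, C.card ≤ g.c ∧ (g.B (plant (g.b z) y ω) q →
      ∀ ω', (∀ i ∈ C, ω' i = plant (g.b z) y ω i) → g.B ω' q) := by
    intro y
    by_cases h : g.B (plant (g.b z) y ω) q
    · obtain ⟨C, h1, h2⟩ := g.locB _ q h
      exact ⟨C, h1, fun _ => h2⟩
    · exact ⟨∅, by simp, fun h' => absurd h' h⟩
  choose CA hCA1 hCA2 using hCA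
  choose CB hCB1 hCB2 using hCB
  let U : W → Prop := fun y => g.Good (plant (g.b z) y ω) ∧ g.A (plant (g.b z) y ω) q
  let V : W → Prop := fun y => g.Good (plant (g.b z) y ω) ∧ g.B (plant (g.b z) y ω) q
  let P : W × W → Prop := fun p =>
    p.1 ≠ p.2 ∧ g.Bad (plant (g.b z) p.1 (plant (g.b z) p.2 ω))
  let P1 : W × W → Prop := fun p => U p.1 ∧ ∃ i ∈ CA p.1, ∃ j, g.b z p.2 j = i
  let P2 : W × W → Prop := fun p => V p.2 ∧ ∃ i ∈ CB p.2, ∃ j, g.b z p.1 j = i
  have hlow : (a q : ℝ) * b q ≤ cnt (fun p : W × W => U p.1 ∧ V p.2) := by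
    refine cnt_prod_ge _ U (b q) fun y hy => ?_
    have : b q ≤ cnt (fun y' => U y ∧ V y') := cnt_mono fun y' hy' => ⟨hy, hy'⟩
    exact_mod_cast this
  have hup : cnt (fun p : W × W => U p.1 ∧ V p.2) ≤ cnt P + (cnt P1 + cnt P2) := by
    refine le_trans (cnt_mono fun p hp => ?_) ((cnt_or P (fun p => P1 p ∨ P2 p)).trans
      (Nat.add_le_add_left (cnt_or P1 P2) _))
    by_cases h1 : P1 p
    · exact Or.inr (Or.inl h1)
    by_cases h2 : P2 p
    · exact Or.inr (Or.inr h2)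
    left
    obtain ⟨y, y'⟩ := p
    simp only at hp
    refine ⟨fun he => ?_, q, ?_, ?_⟩
    · simp only at he
      subst he
      exact hp.1.1.1 q ⟨hp.1.2, hp.2.2⟩
    · simp only
      rw [plant_comm]
      refine hCA2 y hp.1.2 _ (plant_agree (fun h => h1 ⟨hp.1, h⟩) _)
    · refine hCB2 y' hp.2.2 _ (plant_agree (fun h => h2 ⟨hp.2, h⟩) _)
  have hP1 : (cnt P1 : ℝ) ≤ a q * c := by
    refine cnt_prod_le P1 U c (fun y y' h => h.1) fun y hy => ?_
    have h1 : cnt (fun y' => P1 (y, y')) ≤ cnt (fun y' => ∃ i ∈ CA y, ∃ j, g.b z y' j = i) :=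
      cnt_mono fun y' h => h.2
    have h2 := touch (g.injb z) (CA y)
    have h3 : ((CA y).card : ℝ) ≤ c := Nat.cast_le.2 (hCA1 y)
    have h4 : (cnt (fun y' => P1 (y, y')) : ℝ) ≤
      cnt (fun y' => ∃ i ∈ CA y, ∃ j, g.b z y' j = i) := by exact_mod_cast h1
    linarith
  have hP2 : (cnt P2 : ℝ) ≤ b q * c := by
    have e : cnt P2 = cnt (fun p : W × W => P2 (p.2, p.1)) :=
      (cnt_equiv (Equiv.prodComm W W) P2).symm
    rw [e]
    refine cnt_prod_le (fun p : W × W => P2 (p.2, p.1)) V c (fun y y' h => h.1) fun y hy => ?_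
    have h1 : cnt (fun y' => P2 (y', y)) ≤ cnt (fun y' => ∃ i ∈ CB y, ∃ j, g.b z y' j = i) :=
      cnt_mono fun y' h => h.2
    have h2 := touch (g.injb z) (CB y)
    have h3 : ((CB y).card : ℝ) ≤ c := Nat.cast_le.2 (hCB1 y)
    have h4 : (cnt (fun y' => P2 (y', y)) : ℝ) ≤
      cnt (fun y' => ∃ i ∈ CB y, ∃ j, g.b z y' j = i) := by exact_mod_cast h1
    linarith
  have hup' : (cnt (fun p : W × W => U p.1 ∧ V p.2) : ℝ) ≤ cnt P + (cnt P1 + cnt P2) := by
    exact_mod_cast hup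
  obtain ⟨ha, hb⟩ := hab
  set x : ℝ := (a q : ℝ) with hx
  set w : ℝ := (b q : ℝ) with hw
  have hm : 0 < N / (4 * c) := by linarith
  have h1 : x * w / 2 ≤ cnt P := by nlinarith
  have h2 : (N / (4 * c)) ^ 2 ≤ x * w := by nlinarith
  have h3 : (N / (4 * c)) ^ 2 * (16 * c ^ 2) = N ^ 2 := by
    field_simp
    ring
  have h4 : 0 ≤ (cnt P : ℝ) := Nat.cast_nonneg _
  calc N ^ 2 = (N / (4 * c)) ^ 2 * (16 * c ^ 2) := h3.symm
    _ ≤ (2 * cnt P) * (16 * c ^ 2) := by
        refine mul_le_mul_of_nonneg_right (by linarith) (by positivity)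
    _ = 32 * c ^ 2 * cnt P := by ring

end Game

end ESY.Fin
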