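import Mathlib

/-!
# Disjoint NP-pairs relative to an oracle: definitions
-/

namespace ESY

open MeasureTheory

/-- An oracle: the characteristic function of a language over `{0,1}`. -/
abbrev Oracle : Type := List Bool → Bool

/-- Instructions of a deterministic oracle machine with `k` stacks of bits and `q` states. -/
inductive Instr (k q : ℕ) : Type
  /-- push the bit `b` on stack `i` and go to state `next` -/
  | push (i : Fin k) (b : Bool) (next : Fin q)
  /-- pop stack `i` and branch: it was empty, the bit was `0`, the bit was `1` -/
  | pop (i : Fin k) (ifEmpty ifZero ifOne : Fin q)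
  /-- ask the oracle about the string on stack `i` (read from the top) and branch -/
  | query (i : Fin k) (ifNo ifYes : Fin q)
  /-- stop with this answer -/
  | halt (answer : Bool)

/-- A deterministic oracle machine: at least two stacks, at least one state (state `0` is
initial), one instruction per state. Two stacks make a tape, so up to a constant factor in the
running time these are the multitape Turing machines with an oracle tape. -/
structure Machine : Type where
  k : ℕ
  q : ℕ
  code : Fin (q + 1) → Instr (k + 2) (q + 1)

/-- Configurations: a state and the contents of the stacks (top first). -/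
structure Cfg (M : Machine) : Type where
  state : Fin (M.q + 1)
  stack : Fin (M.k + 2) → List Bool

/-- One step of the machine `M` with the oracle `O`. -/
def step (O : Oracle) (M : Machine) (c : Cfg M) : Cfg M :=
  match M.code c.state with
  | .push i b next => ⟨next, Function.update c.stack i (b :: c.stack i)⟩
  | .pop i ifEmpty ifZero ifOne =>
    match c.stack i with
    | [] => ⟨ifEmpty, c.stack⟩
    | false :: s => ⟨ifZero, Function.update c.stack i s⟩
    | true :: s => ⟨ifOne, Function.update c.stack i s⟩
  | .query i ifNo ifYes => ⟨if O (c.stack i) = true then ifYes else ifNo, c.stack⟩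
  | .halt _ => c

/-- The initial configuration: `x` on stack `0`, `w` on stack `1`, the other stacks empty. -/
def start (M : Machine) (x w : List Bool) : Cfg M :=
  ⟨0, fun i => if i = 0 then x else if i = 1 then w else []⟩

/-- `M` with oracle `O` accepts the input `x` with second input `w` within `t` steps. -/
def AcceptsIn (O : Oracle) (M : Machine) (x w : List Bool) (t : ℕ) : Prop :=
  M.code ((step O M)^[t] (start M x w)).state = .halt true

/-- `L` is decided relative to `O` by a machine within time `T c n`, `n` the input length, for
some index `c` of the sequence `T` of time bounds. -/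
def InTime (T : ℕ → ℕ → ℕ) (O : Oracle) (L : Set (List Bool)) : Prop :=
  ∃ (M : Machine) (c : ℕ), ∀ x, x ∈ L ↔ AcceptsIn O M x [] (T c x.length)

/-- `L` is accepted relative to `O` by a nondeterministic machine within such time bounds: `x` is
in `L` if and only if some witness `w` of length at most `T c n` is accepted in time `T c n`. -/
def InNTime (T : ℕ → ℕ → ℕ) (O : Oracle) (L : Set (List Bool)) : Prop :=
  ∃ (M : Machine) (c : ℕ), ∀ x, x ∈ L ↔
    ∃ w : List Bool, w.length ≤ T c x.length ∧ AcceptsIn O M x w (T c x.length)

/-- The polynomial time bounds `n ^ c + c`. -/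
def poly (c n : ℕ) : ℕ := n ^ c + c

/-- The class `P` relative to `O`. -/
def InP (O : Oracle) (L : Set (List Bool)) : Prop := InTime poly O L

/-- The class `NP` relative to `O`. -/
def InNP (O : Oracle) (L : Set (List Bool)) : Prop := InNTime poly O L

/-- The join of two oracles. -/
def join (O T : Oracle) : Oracle
  | [] => false
  | false :: x => O x
  | true :: x => T x

/-- `T` is (the characteristic function of) a separator of `(A, B)`. -/
def Separator (A B : Set (List Bool)) (T : Oracle) : Prop :=
  (∀ x ∈ A, T x = true) ∧ ∀ x ∈ B, T x = false

/-- `(A, B)` is a disjoint `NP`-pair relative to `O`. -/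
def DisjointNPPair (O : Oracle) (A B : Set (List Bool)) : Prop :=
  A.Nonempty ∧ B.Nonempty ∧ InNP O A ∧ InNP O B ∧ Disjoint A B

/-- Relative to `O`, the pair `(A, B)` is `NP`-hard: every language of `NP` is polynomial-time
Turing reducible to every separator of `(A, B)`. -/
def NPHard (O : Oracle) (A B : Set (List Bool)) : Prop :=
  ∀ S : Oracle, Separator A B S → ∀ L, InNP O L → InP (join O S) L

/-- The Even-Selman-Yacobi conjecture relative to `O`: no disjoint `NP`-pair is `NP`-hard. -/
def ESYRel (O : Oracle) : Prop := ¬ ∃ A B, DisjointNPPair O A B ∧ NPHard O A B

/-- A strong form: every disjoint `NP`-pair has a separator `S` such that, for some language `L`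
of `NP`, with the oracle `S` one can neither decide `L` deterministically nor accept its
complement nondeterministically, within the time bounds `T`. -/
def StrongESYRel (T : ℕ → ℕ → ℕ) (O : Oracle) : Prop :=
  ∀ A B, DisjointNPPair O A B → ∃ S, Separator A B S ∧
    ∃ L, InNP O L ∧ ¬ InTime T (join O S) L ∧ ¬ InNTime T (join O S) Lᶜ

/-- All the time bounds `T c` are subexponential, `T c n = 2 ^ o(n)`. -/
def Subexponential (T : ℕ → ℕ → ℕ) : Prop :=
  ∀ c k : ℕ, ∀ᶠ n in Filter.atTop, T c n ^ k ≤ 2 ^ n

/-- The uniform (fair coin) probability measure on oracles. -/
noncomputable def coin : Measure Oracle :=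
  Measure.infinitePi fun _ : List Bool => (PMF.uniformOfFintype Bool).toMeasure

end ESY
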