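import Mathlib

/-!
# Planting witnesses: counting lemmas on the finite cube
-/

set_option linter.unusedSectionVars false

namespace ESY.Fin

/-- the number of elements satisfying `P` -/
noncomputable def cnt {α : Type*} (P : α → Prop) : ℕ := Nat.card {a // P a}

section cnt

variable {α β : Type*}

theorem cnt_eq [Fintype α] (P : α → Prop) [DecidablePred P] :
    cnt P = (Finset.univ.filter P).card := by
  unfold cnt
  rw [Nat.card_eq_fintype_card, Fintype.card_subtype]

theorem cnt_eq_sum [Fintype α] (P : α → Prop) [DecidablePred P] :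
    cnt P = ∑ a, if P a then 1 else 0 := by
  rw [cnt_eq, Finset.card_filter]

variable [Finite α] [Finite β]

theorem cnt_mono {P Q : α → Prop} (h : ∀ a, P a → Q a) : cnt P ≤ cnt Q := by
  classical
  have := Fintype.ofFinite α
  rw [cnt_eq, cnt_eq]
  exact Finset.card_le_card fun a ha =>
    Finset.mem_filter.2 ⟨Finset.mem_univ _, h a (Finset.mem_filter.1 ha).2⟩

theorem cnt_congr {P Q : α → Prop} (h : ∀ a, P a ↔ Q a) : cnt P = cnt Q :=
  le_antisymm (cnt_mono fun a => (h a).1) (cnt_mono fun a => (h a).2)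

theorem cnt_true {P : α → Prop} (h : ∀ a, P a) : cnt P = Nat.card α := by
  classical
  have := Fintype.ofFinite α
  rw [cnt_eq, Finset.filter_true_of_mem (fun a _ => h a), Finset.card_univ,
    Nat.card_eq_fintype_card]

theorem cnt_le_card (P : α → Prop) : cnt P ≤ Nat.card α := by
  rw [← cnt_true (P := fun _ : α => True) (fun _ => trivial)]
  exact cnt_mono fun _ _ => trivial

theorem cnt_false {P : α → Prop} (h : ∀ a, ¬ P a) : cnt P = 0 := by
  classical
  have := Fintype.ofFinite α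
  rw [cnt_eq, Finset.card_eq_zero]
  exact Finset.filter_eq_empty_iff.2 fun a _ => h a

theorem cnt_or (P Q : α → Prop) : cnt (fun a => P a ∨ Q a) ≤ cnt P + cnt Q := by
  classical
  have := Fintype.ofFinite α
  rw [cnt_eq, cnt_eq, cnt_eq, Finset.filter_or]
  exact Finset.card_union_le _ _

theorem cnt_split (P Q : α → Prop) :
    cnt P = cnt (fun a => P a ∧ Q a) + cnt (fun a => P a ∧ ¬ Q a) := by
  classical
  have := Fintype.ofFinite α
  rw [cnt_eq, cnt_eq, cnt_eq, ← Finset.card_filter_add_card_filter_not (s := Finset.univ.filter P) Q,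
    Finset.filter_filter, Finset.filter_filter]

theorem cnt_prod [Fintype α] (P : α × β → Prop) : cnt P = ∑ a, cnt (fun b => P (a, b)) := by
  classical
  have := Fintype.ofFinite β
  rw [cnt_eq_sum, Fintype.sum_prod_type]
  refine Finset.sum_congr rfl fun a _ => ?_
  rw [cnt_eq_sum]

theorem cnt_prod' [Fintype β] (P : α × β → Prop) : cnt P = ∑ b, cnt (fun a => P (a, b)) := by
  classical
  have := Fintype.ofFinite α
  rw [cnt_eq_sum, Fintype.sum_prod_type_right]
  refine Finset.sum_congr rfl fun a _ => ?_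
  rw [cnt_eq_sum]

theorem cnt_inj {P : α → Prop} {Q : β → Prop} (f : α → β) (h : ∀ a, P a → Q (f a))
    (hf : ∀ a a', P a → P a' → f a = f a' → a = a') : cnt P ≤ cnt Q := by
  classical
  have := Fintype.ofFinite α
  have := Fintype.ofFinite β
  rw [cnt_eq, cnt_eq]
  refine Finset.card_le_card_of_injOn f (fun a ha => ?_) (fun a ha a' ha' e => ?_)
  · exact Finset.mem_coe.2 (Finset.mem_filter.2 ⟨Finset.mem_univ _, h a (Finset.mem_filter.1 ha).2⟩)
  · exact hf a a' (Finset.mem_filter.1 ha).2 (Finset.mem_filter.1 ha').2 e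

theorem cnt_fiber {P : α → Prop} {Q : β → Prop} (f : α → β) (n : ℕ) (h : ∀ a, P a → Q (f a))
    (hf : ∀ b, cnt (fun a => P a ∧ f a = b) ≤ n) : cnt P ≤ n * cnt Q := by
  classical
  have := Fintype.ofFinite α
  have := Fintype.ofFinite β
  have h1 := Finset.card_le_mul_card_image (f := f) (Finset.univ.filter P) n (fun b _ => by
    have := hf b
    rw [cnt_eq] at this
    rwa [Finset.filter_filter])
  rw [cnt_eq, cnt_eq]
  refine h1.trans (Nat.mul_le_mul_left _ (Finset.card_le_card ?_))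
  intro b hb
  obtain ⟨a, ha, rfl⟩ := Finset.mem_image.1 hb
  exact Finset.mem_filter.2 ⟨Finset.mem_univ _, h a (Finset.mem_filter.1 ha).2⟩

omit [Finite β] in
/-- union bound -/
theorem cnt_exists_le (F : Finset β) (R : β → α → Prop) (r : ℝ)
    (h : ∀ i ∈ F, (cnt (R i) : ℝ) ≤ r) :
    (cnt (fun a => ∃ i ∈ F, R i a) : ℝ) ≤ F.card * r := by
  classical
  have := Fintype.ofFinite α
  have h1 : cnt (fun a => ∃ i ∈ F, R i a) ≤ ∑ i ∈ F, cnt (R i) := by
    rw [cnt_eq]
    refine le_trans (Finset.card_le_card (t := F.biUnion fun i => Finset.univ.filter (R i)) ?_) ?_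
    · intro a ha
      obtain ⟨i, hi, hr⟩ := (Finset.mem_filter.1 ha).2
      exact Finset.mem_biUnion.2 ⟨i, hi, Finset.mem_filter.2 ⟨Finset.mem_univ _, hr⟩⟩
    · refine Finset.card_biUnion_le.trans (le_of_eq ?_)
      exact Finset.sum_congr rfl fun i _ => (cnt_eq _).symm
  calc (cnt (fun a => ∃ i ∈ F, R i a) : ℝ) ≤ ((∑ i ∈ F, cnt (R i) : ℕ) : ℝ) := by exact_mod_cast h1
    _ = ∑ i ∈ F, (cnt (R i) : ℝ) := by push_cast; rfl
    _ ≤ ∑ _i ∈ F, r := Finset.sum_le_sum h
    _ = F.card * r := by simp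

omit [Finite β] in
theorem cnt_le_one {P : α → Prop} (h : ∀ a a', P a → P a' → a = a') : cnt P ≤ 1 := by
  unfold cnt
  have : Subsingleton {a // P a} := ⟨fun a b => Subtype.ext (h _ _ a.2 b.2)⟩
  exact Finite.card_le_one_iff_subsingleton.2 this

theorem cnt_prod_le (P : α × β → Prop) (Q : α → Prop) (r : ℝ) (hQ : ∀ a b, P (a, b) → Q a)
    (h : ∀ a, Q a → (cnt (fun b => P (a, b)) : ℝ) ≤ r) : (cnt P : ℝ) ≤ cnt Q * r := by
  classical
  have := Fintype.ofFinite α
  rw [cnt_prod, cnt_eq_sum]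
  push_cast
  rw [Finset.sum_mul]
  refine Finset.sum_le_sum fun a _ => ?_
  by_cases ha : Q a
  · simpa [ha] using h a ha
  · rw [cnt_false (fun b hb => ha (hQ a b hb))]
    simp [ha]

theorem cnt_prod_ge (P : α × β → Prop) (Q : α → Prop) (r : ℝ)
    (h : ∀ a, Q a → r ≤ (cnt (fun b => P (a, b)) : ℝ)) : cnt Q * r ≤ (cnt P : ℝ) := by
  classical
  have := Fintype.ofFinite α
  rw [cnt_prod, cnt_eq_sum]
  push_cast
  rw [Finset.sum_mul]
  refine Finset.sum_le_sum fun a _ => ?_
  by_cases ha : Q a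
  · simpa [ha] using h a ha
  · simp [ha]

theorem cnt_equiv (e : α ≃ β) (P : β → Prop) : cnt (fun a => P (e a)) = cnt P := by
  refine le_antisymm (cnt_inj e (fun _ h => h) fun a a' _ _ h => e.injective h)
    (cnt_inj e.symm (fun b h => by simpa using h) fun a a' _ _ h => e.symm.injective h)

end cnt

variable {I W J : Type*} [Finite I] [Finite W] [Finite J]

/-- all bits of the block `y` are on -/
def Wit (b : W → J → I) (ω : I → Bool) (y : W) : Prop := ∀ j, ω (b y j) = true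

/-- there is no witness -/
def NoWit (b : W → J → I) (ω : I → Bool) : Prop := ∀ y, ¬ Wit b ω y

open Classical in
/-- switch on all bits of the block `y` -/
noncomputable def plant (b : W → J → I) (y : W) (ω : I → Bool) : I → Bool :=
  fun i => if ∃ j, b y j = i then true else ω i

/-- the blocks are disjoint and injectively indexed -/
def Inj (b : W → J → I) : Prop := ∀ y y' j j', b y j = b y' j' → y = y' ∧ j = j'

theorem plant_on (b : W → J → I) (y : W) (ω : I → Bool) (j : J) : plant b y ω (b y j) = true := by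
  unfold plant
  rw [if_pos ⟨j, rfl⟩]

theorem plant_off (b : W → J → I) (y : W) (ω : I → Bool) (i : I) (h : ¬ ∃ j, b y j = i) :
    plant b y ω i = ω i := by
  unfold plant
  rw [if_neg h]

theorem wit_plant (b : W → J → I) (y : W) (ω : I → Bool) : Wit b (plant b y ω) y :=
  fun j => plant_on b y ω j

theorem wit_plant_iff {b : W → J → I} (hb : Inj b) (y : W) (ω : I → Bool) (y' : W) (h : y' ≠ y) :
    Wit b (plant b y ω) y' ↔ Wit b ω y' := by
  unfold Wit
  refine forall_congr' fun j => ?_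
  rw [plant_off]
  rintro ⟨j', h'⟩
  exact h (hb _ _ _ _ h').1.symm

theorem plant_comm (b : W → J → I) (y y' : W) (ω : I → Bool) :
    plant b y (plant b y' ω) = plant b y' (plant b y ω) := by
  funext i
  unfold plant
  by_cases h1 : ∃ j, b y j = i <;> by_cases h2 : ∃ j, b y' j = i <;> simp [h1, h2]

theorem card_pow : Nat.card (J → Bool) = 2 ^ Nat.card J := by
  classical
  have := Fintype.ofFinite J
  simp [Nat.card_eq_fintype_card]

/-- at most `|F|` blocks meet `F` -/
theorem touch {b : W → J → I} (hb : Inj b) (F : Finset I) :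
    (cnt (fun y => ∃ i ∈ F, ∃ j, b y j = i) : ℝ) ≤ F.card := by
  have h := cnt_exists_le F (fun (i : I) (y : W) => ∃ j, b y j = i) 1 (fun i _ => by
    exact_mod_cast cnt_le_one (by
      rintro y y' ⟨j, hj⟩ ⟨j', hj'⟩
      exact (hb _ _ _ _ (hj.trans hj'.symm)).1))
  simpa using h

/-- planting in a block that does not meet `F` changes nothing on `F` -/
theorem plant_agree {b : W → J → I} {F : Finset I} {y : W} (h : ¬ ∃ i ∈ F, ∃ j, b y j = i)
    (ω : I → Bool) : ∀ i ∈ F, plant b y ω i = ω i := fun i hi =>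
  plant_off b y ω i fun hj => h ⟨i, hi, hj⟩

/-- a fibre of `plant` has at most `2 ^ |J|` elements -/
theorem fiber_plant (b : W → J → I) (y : W) (ω' : I → Bool) :
    cnt (fun ω => plant b y ω = ω') ≤ 2 ^ Nat.card J := by
  classical
  have : cnt (fun ω => plant b y ω = ω') ≤ cnt (fun _ : J → Bool => True) := by
    refine cnt_inj (fun ω j => ω (b y j)) (fun _ _ => trivial) ?_
    intro ω ω1 e1 e2 h
    funext i
    by_cases hi : ∃ j, b y j = i
    · obtain ⟨j, rfl⟩ := hi
      exact congrFun h j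
    · rw [← plant_off b y ω i hi, ← plant_off b y ω1 i hi, e1, e2]
  rw [cnt_true (fun _ => trivial)] at this
  rwa [card_pow] at this

/-- mapping by `plant` -/
theorem card_plant (b : W → J → I) (y : W) (P Q : (I → Bool) → Prop)
    (h : ∀ ω, P ω → Q (plant b y ω)) :
    cnt P ≤ 2 ^ Nat.card J * cnt (fun ω => Q ω ∧ Wit b ω y) := by
  refine cnt_fiber (plant b y) _ (fun ω hω => ⟨h ω hω, wit_plant b y ω⟩) fun ω' => ?_
  exact (cnt_mono fun ω hω => hω.2).trans (fiber_plant b y ω')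

/-- a witness at `y` has density at most `2 ^ -|J|` -/
theorem card_wit {b : W → J → I} (hb : Inj b) (y : W) :
    2 ^ Nat.card J * cnt (fun ω => Wit b ω y) ≤ Nat.card (I → Bool) := by
  classical
  have hj : ∀ j j', b y j = b y j' → j = j' := fun j j' h => (hb _ _ _ _ h).2
  have h0 : cnt (fun p : (J → Bool) × (I → Bool) => Wit b p.2 y) =
      2 ^ Nat.card J * cnt (fun ω => Wit b ω y) := by
    have := Fintype.ofFinite (J → Bool)
    rw [cnt_prod]
    simp only [Finset.sum_const, smul_eq_mul, Finset.card_univ]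
    rw [← Nat.card_eq_fintype_card, card_pow]
  rw [← h0, ← cnt_true (P := fun _ : I → Bool => True) (fun _ => trivial)]
  refine cnt_inj
      (fun p i => if h : ∃ j, b y j = i then p.1 h.choose else p.2 i) (fun _ _ => trivial) ?_
  rintro ⟨v, ω⟩ ⟨v1, ω1⟩ h1 h2 h
  have hv : v = v1 := by
    funext j
    have hh := congrFun h (b y j)
    have he : ∃ j', b y j' = b y j := ⟨j, rfl⟩
    simp only [he, dite_true] at hh
    have : he.choose = j := hj _ _ he.choose_spec
    rwa [this] at hh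
  have hω : ω = ω1 := by
    funext i
    by_cases hi : ∃ j, b y j = i
    · obtain ⟨j, rfl⟩ := hi
      have := h1 j
      have := h2 j
      simp_all
    · have hh := congrFun h i
      simpa only [hi, dite_false] using hh
  rw [hv, hω]

/-- single planting -/
theorem plant_one {b : W → J → I} (hb : Inj b) (P : (I → Bool) → Prop) :
    cnt (fun p : W × (I → Bool) => NoWit b p.2 ∧ P (plant b p.1 p.2)) ≤
      2 ^ Nat.card J * cnt P := by
  have := Fintype.ofFinite W
  rw [cnt_prod]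
  have h1 : ∀ y : W, cnt (fun ω => NoWit b ω ∧ P (plant b y ω)) ≤
      2 ^ Nat.card J * cnt (fun ω => (P ω ∧ ∀ y', y' ≠ y → ¬ Wit b ω y') ∧ Wit b ω y) := by
    intro y
    refine card_plant b y _ _ fun ω hω => ⟨hω.2, fun y' hy' hw => ?_⟩
    exact hω.1 y' ((wit_plant_iff hb y ω y' hy').1 hw)
  refine (Finset.sum_le_sum fun y _ => h1 y).trans ?_
  rw [← Finset.mul_sum]
  refine Nat.mul_le_mul_left _ ?_
  rw [← cnt_prod (fun p : W × (I → Bool) => (P p.2 ∧ ∀ y', y' ≠ p.1 → ¬ Wit b p.2 y') ∧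
    Wit b p.2 p.1)]
  refine cnt_inj Prod.snd (fun p hp => hp.1.1) ?_
  rintro ⟨y, ω⟩ ⟨y', ω'⟩ h h' e
  simp only at h h' e
  subst e
  have : y = y' := by
    by_contra hne
    exact h'.1.2 y hne h.2
  rw [this]

/-- double planting -/
theorem plant_two {b : W → J → I} (hb : Inj b) (P : (I → Bool) → Prop) :
    cnt (fun p : (I → Bool) × (W × W) => NoWit b p.1 ∧ p.2.1 ≠ p.2.2 ∧
      P (plant b p.2.1 (plant b p.2.2 p.1))) ≤ 2 * (2 ^ Nat.card J) ^ 2 * cnt P := by
  classical
  have := Fintype.ofFinite W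
  have := Fintype.ofFinite I
  rw [cnt_prod']
  have h1 : ∀ p : W × W,
      cnt (fun ω => NoWit b ω ∧ p.1 ≠ p.2 ∧ P (plant b p.1 (plant b p.2 ω))) ≤
      (2 ^ Nat.card J) ^ 2 *
        cnt (fun ω => P ω ∧ p.1 ≠ p.2 ∧ (∀ y', y' ≠ p.1 → y' ≠ p.2 → ¬ Wit b ω y') ∧
          Wit b ω p.1 ∧ Wit b ω p.2) := by
    rintro ⟨y, y'⟩
    have a1 := card_plant b y' (fun ω => NoWit b ω ∧ y ≠ y' ∧ P (plant b y (plant b y' ω)))
      (fun ω => P (plant b y ω) ∧ y ≠ y' ∧ (∀ y1, y1 ≠ y → y1 ≠ y' → ¬ Wit b ω y1)) (by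
        intro ω h
        refine ⟨h.2.2, h.2.1, fun y1 _ hy1 hw => ?_⟩
        exact h.1 y1 ((wit_plant_iff hb y' ω y1 hy1).1 hw))
    have a2 := card_plant b y (fun ω => (P (plant b y ω) ∧ y ≠ y' ∧
        (∀ y1, y1 ≠ y → y1 ≠ y' → ¬ Wit b ω y1)) ∧ Wit b ω y')
      (fun ω => P ω ∧ y ≠ y' ∧
      (∀ y1, y1 ≠ y → y1 ≠ y' → ¬ Wit b ω y1) ∧ Wit b ω y') (by
        intro ω h
        refine ⟨h.1.1, h.1.2.1, fun y1 g1 g2 hw => ?_,
          (wit_plant_iff hb y ω y' (fun hh => h.1.2.1 hh.symm)).2 h.2⟩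
        exact h.1.2.2 y1 g1 g2 ((wit_plant_iff hb y ω y1 g1).1 hw))
    rw [pow_two, mul_assoc]
    refine a1.trans (Nat.mul_le_mul_left _ (a2.trans (Nat.mul_le_mul_left _ (cnt_mono ?_))))
    intro ω h
    exact ⟨h.1.1, h.1.2.1, h.1.2.2.1, h.2, h.1.2.2.2⟩
  refine (Finset.sum_le_sum fun y _ => h1 y).trans ?_
  rw [← Finset.mul_sum, mul_comm 2, mul_assoc]
  refine Nat.mul_le_mul_left _ ?_
  rw [← cnt_prod' (fun p : (I → Bool) × (W × W) => P p.1 ∧ p.2.1 ≠ p.2.2 ∧
    (∀ y', y' ≠ p.2.1 → y' ≠ p.2.2 → ¬ Wit b p.1 y') ∧ Wit b p.1 p.2.1 ∧ Wit b p.1 p.2.2)]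
  refine cnt_fiber Prod.fst 2 (fun p hp => hp.1) fun ω => ?_
  by_cases he : ∃ p : W × W, p.1 ≠ p.2 ∧
      (∀ y', y' ≠ p.1 → y' ≠ p.2 → ¬ Wit b ω y') ∧ Wit b ω p.1 ∧ Wit b ω p.2
  · obtain ⟨⟨u, v⟩, g1, g2, g3, g4⟩ := he
    rw [cnt_eq]
    refine le_trans (Finset.card_le_card (t := {(ω, u, v), (ω, v, u)}) ?_) Finset.card_le_two
    rintro ⟨ω', u', v'⟩ h
    obtain ⟨⟨-, k1, k2, k3, k4⟩, rfl⟩ := (Finset.mem_filter.1 h).2
    simp only at k1 k2 k3 k4 g1 g2 g3 g4
    have hu : u' = u ∨ u' = v := by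
      by_contra hcon
      push Not at hcon
      exact g2 u' hcon.1 hcon.2 k3
    have hv : v' = u ∨ v' = v := by
      by_contra hcon
      push Not at hcon
      exact g2 v' hcon.1 hcon.2 k4
    simp only [Finset.mem_insert, Finset.mem_singleton, Prod.mk.injEq, true_and]
    rcases hu with rfl | rfl <;> rcases hv with rfl | rfl
    · exact absurd rfl k1
    · exact Or.inl ⟨rfl, rfl⟩
    · exact Or.inr ⟨rfl, rfl⟩
    · exact absurd rfl k1
  · rw [cnt_false]
    · exact Nat.zero_le _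
    · rintro ⟨ω', p⟩ ⟨⟨-, hp⟩, rfl⟩
      exact he ⟨p, hp⟩

end ESY.Fin
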