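import Pool.Agent.Lib.MP_80aaf5_lc.Local
import Pool.Agent.Lib.MP_80aaf5_lc.Plant

/-!
# A non-null set of oracles is dense in some cylinder
-/

namespace ESY

open MeasureTheory Set
open scoped ENNReal

instance : IsProbabilityMeasure coin := by unfold coin; infer_instance

/-- the strings of length less than `n` -/
noncomputable def lev (n : ℕ) : Finset (List Bool) := (List.finite_length_lt Bool n).toFinset

theorem mem_lev {n : ℕ} {x : List Bool} : x ∈ lev n ↔ x.length < n := by
  unfold lev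
  rw [Set.Finite.mem_toFinset]
  rfl

theorem coin_cyl (S : Finset (List Bool)) (f : Oracle) :
    coin {R | ∀ x ∈ S, R x = f x} = (1 / 2) ^ S.card := by
  have h1 : {R : Oracle | ∀ x ∈ S, R x = f x} = (S : Set (List Bool)).pi fun x => {f x} := by
    ext R
    simp [Set.mem_pi]
  rw [h1]
  unfold coin
  rw [Measure.infinitePi_pi _ fun i _ => measurableSet_singleton _]
  rw [Finset.prod_congr rfl (g := fun _ => (1 / 2 : ℝ≥0∞)) fun x _ => ?_]
  · rw [Finset.prod_const]
  · rw [PMF.toMeasure_apply_singleton _ _ (measurableSet_singleton _)]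
    simp

/-- the cylinder of level `n` with pattern `σ` -/
def cyl (n : ℕ) (σ : lev n → Bool) : Set Oracle := {R | ∀ x : lev n, R x = σ x}

theorem measurable_cyl (n : ℕ) (σ : lev n → Bool) : MeasurableSet (cyl n σ) := by
  have : cyl n σ = ⋂ x : lev n, {R : Oracle | R x = σ x} := by
    ext R
    simp [cyl]
  rw [this]
  refine MeasurableSet.iInter fun x => ?_
  exact measurableSet_eq_fun (measurable_pi_apply (x : List Bool)) measurable_const

theorem density_cyl (E : Set Oracle) (hE : coin E ≠ 0) :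
    ∃ (n : ℕ) (σ : lev n → Bool), 19 * coin (cyl n σ) < 20 * coin (E ∩ cyl n σ) := by
  classical
  by_contra hcon
  push Not at hcon
  have hfin : coin E ≠ ∞ := measure_ne_top _ _
  have hlt : coin E < 20 / 19 * coin E := by
    have h1 : (1 : ℝ≥0∞) < 20 / 19 := by
      rw [ENNReal.lt_div_iff_mul_lt (by simp) (by simp)]
      norm_num
    calc coin E = 1 * coin E := (one_mul _).symm
      _ < 20 / 19 * coin E := ENNReal.mul_lt_mul_left hE hfin h1
  obtain ⟨U, hEU, hUo, hU⟩ := Set.exists_isOpen_lt_of_lt E _ hlt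
  let V : ℕ → Set Oracle := fun n => {R | ∀ R' : Oracle, (∀ x ∈ lev n, R' x = R x) → R' ∈ U}
  have hmono : Monotone V := by
    intro m n hmn R hR R' hR'
    exact hR R' fun x hx => hR' x (mem_lev.2 ((mem_lev.1 hx).trans_le hmn))
  have hV : ∀ n, V n ⊆ U := fun n R hR => hR R fun _ _ => rfl
  have hunion : ⋃ n, V n = U := by
    refine Subset.antisymm (iUnion_subset hV) fun R hR => ?_
    obtain ⟨I, u, hu, hI⟩ := isOpen_pi_iff.1 hUo R hR
    refine mem_iUnion.2 ⟨I.sup List.length + 1, fun R' hR' => hI ?_⟩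
    intro x hx
    rw [hR' x (mem_lev.2 (Nat.lt_succ_of_le (Finset.le_sup (f := List.length) hx)))]
    exact (hu x hx).2
  have hE1 : coin E = ⨆ n, coin (E ∩ V n) := by
    have h1 : E = ⋃ n, E ∩ V n := by
      rw [← inter_iUnion, hunion]
      exact (inter_eq_left.2 hEU).symm
    have h2 : Monotone fun n => E ∩ V n := fun m n hmn =>
      inter_subset_inter_right _ (hmono hmn)
    calc coin E = coin (⋃ n, E ∩ V n) := by rw [← h1]
      _ = _ := h2.measure_iUnion
  have hbd : ∀ n, 20 * coin (E ∩ V n) ≤ 19 * coin U := by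
    intro n
    let S : Finset (lev n → Bool) := Finset.univ.filter fun σ => cyl n σ ⊆ U
    have h1 : E ∩ V n ⊆ ⋃ σ ∈ S, E ∩ cyl n σ := by
      rintro R ⟨hRE, hRV⟩
      refine mem_iUnion₂.2 ⟨fun x => R x, ?_, hRE, fun x => rfl⟩
      refine Finset.mem_filter.2 ⟨Finset.mem_univ _, fun R' hR' => hRV R' fun x hx => ?_⟩
      exact hR' ⟨x, hx⟩
    have h2 : (⋃ σ ∈ S, cyl n σ) ⊆ U := by
      intro R hR
      obtain ⟨σ, hσ, hRσ⟩ := mem_iUnion₂.1 hR
      exact (Finset.mem_filter.1 hσ).2 hRσ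
    have h3 : coin (⋃ σ ∈ S, cyl n σ) = ∑ σ ∈ S, coin (cyl n σ) := by
      refine measure_biUnion_finset ?_ fun σ _ => measurable_cyl n σ
      intro σ _ σ' _ hne
      refine Set.disjoint_left.2 fun R hR hR' => hne ?_
      funext x
      rw [← hR x, ← hR' x]
    calc 20 * coin (E ∩ V n) ≤ 20 * ∑ σ ∈ S, coin (E ∩ cyl n σ) := by
          gcongr
          exact (measure_mono h1).trans (measure_biUnion_finset_le S _)
      _ = ∑ σ ∈ S, 20 * coin (E ∩ cyl n σ) := by rw [Finset.mul_sum]
      _ ≤ ∑ σ ∈ S, 19 * coin (cyl n σ) := Finset.sum_le_sum fun σ _ => hcon n σ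
      _ = 19 * coin (⋃ σ ∈ S, cyl n σ) := by rw [h3, Finset.mul_sum]
      _ ≤ 19 * coin U := by gcongr
  have h20 : 20 * coin E ≤ 19 * coin U := by
    rw [hE1, ENNReal.mul_iSup]
    exact iSup_le hbd
  have h19 : 19 * coin U < 20 * coin E := by
    calc 19 * coin U < 19 * (20 / 19 * coin E) := by
          exact ENNReal.mul_lt_mul_right (by simp) (by simp) hU
      _ = 20 * coin E := by
          rw [← mul_assoc, ENNReal.mul_div_cancel (by simp) (by simp)]
  exact absurd (h20.trans_lt h19) (lt_irrefl _)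

/-- the strings of length at least `n` and less than `L` -/
abbrev Mid (n L : ℕ) : Type := {x : List Bool // n ≤ x.length ∧ x.length < L}

instance (n L : ℕ) : Finite (Mid n L) :=
  Finite.of_injective (fun x : Mid n L => (⟨x.1, mem_lev.2 x.2.2⟩ : lev L)) fun _ _ h =>
    Subtype.ext (congrArg (fun y : lev L => y.1) h)

theorem card_mid {n L : ℕ} (h : n ≤ L) : (lev L).card = (lev n).card + Nat.card (Mid n L) := by
  classical
  have h1 : lev n ⊆ lev L := fun x hx => mem_lev.2 ((mem_lev.1 hx).trans_le h)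
  have h2 : Nat.card (Mid n L) = (lev L \ lev n).card := by
    refine Nat.subtype_card (lev L \ lev n) fun x => ?_
    rw [Finset.mem_sdiff, mem_lev, mem_lev, not_lt, and_comm]
  rw [h2, Finset.card_sdiff_of_subset h1]
  have := Finset.card_le_card h1
  omega

/-- **Density.** A set of oracles that is not null meets, in some cylinder, all but 1/20 of the
finer cylinders of any level. -/
theorem density (E : Set Oracle) (hE : coin E ≠ 0) :
    ∃ (n : ℕ) (f : Oracle), ∀ L, n ≤ L →
      20 * Fin.cnt (fun ω : Mid n L → Bool => ¬ ∃ R ∈ E, (∀ x : List Bool, x.length < n → R x = f x) ∧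
        ∀ i : Mid n L, R i.1 = ω i) ≤ Nat.card (Mid n L → Bool) := by
  classical
  obtain ⟨n, σ, hσ⟩ := density_cyl E hE
  let f : Oracle := fun x => if h : x ∈ lev n then σ ⟨x, h⟩ else false
  refine ⟨n, f, fun L hL => ?_⟩
  let K : (Mid n L → Bool) → Prop := fun ω => ∃ R ∈ E, (∀ x : List Bool, x.length < n → R x = f x) ∧
        ∀ i : Mid n L, R i.1 = ω i
  have := Fintype.ofFinite (Mid n L)
  let g : (Mid n L → Bool) → Oracle := fun ω x =>
    if h : n ≤ x.length ∧ x.length < L then ω ⟨x, h⟩ else f x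
  let S : Finset (Mid n L → Bool) := Finset.univ.filter K
  have h1 : E ∩ cyl n σ ⊆ ⋃ ω ∈ S, {R : Oracle | ∀ x ∈ lev L, R x = g ω x} := by
    rintro R ⟨hRE, hRσ⟩
    have hf : ∀ x : List Bool, x.length < n → R x = f x := by
      intro x hx
      have hx' := mem_lev.2 hx
      simp only [f, hx', dite_true]
      exact hRσ ⟨x, hx'⟩
    refine mem_iUnion₂.2 ⟨fun i => R i.1, ?_, fun x hx => ?_⟩
    · exact Finset.mem_filter.2 ⟨Finset.mem_univ _, R, hRE, hf, fun i => rfl⟩
    · by_cases h : n ≤ x.length ∧ x.length < L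
      · simp only [g, h, and_self, dite_true]
      · simp only [g, h, dite_false]
        refine hf x ?_
        by_contra h'
        exact h ⟨not_lt.1 h', mem_lev.1 hx⟩
  have h2 : coin (E ∩ cyl n σ) ≤ S.card * (1 / 2) ^ (lev L).card := by
    calc coin (E ∩ cyl n σ) ≤ coin (⋃ ω ∈ S, {R : Oracle | ∀ x ∈ lev L, R x = g ω x}) :=
          measure_mono h1
      _ ≤ ∑ ω ∈ S, coin {R : Oracle | ∀ x ∈ lev L, R x = g ω x} :=
          measure_biUnion_finset_le S _
      _ = ∑ _ω ∈ S, (1 / 2 : ℝ≥0∞) ^ (lev L).card :=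
          Finset.sum_congr rfl fun ω _ => coin_cyl (lev L) (g ω)
      _ = _ := by rw [Finset.sum_const, nsmul_eq_mul]
  have h3 : coin (cyl n σ) = (1 / 2) ^ (lev n).card := by
    rw [← coin_cyl (lev n) f]
    congr 1
    ext R
    constructor
    · intro h x hx
      simp only [f, hx, dite_true]
      exact h ⟨x, hx⟩
    · intro h x
      have := h x.1 x.2
      simp only [f, x.2, dite_true] at this
      exact this
  have h4 : 19 * (1 / 2 : ℝ≥0∞) ^ (lev n).card < 20 * (S.card * (1 / 2) ^ (lev L).card) := by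
    rw [← h3]
    refine hσ.trans_le ?_
    gcongr
  have h5 : 19 * 2 ^ Nat.card (Mid n L) < 20 * S.card := by
    have e1 : (2 : ℝ≥0∞) ^ (lev L).card * (1 / 2) ^ (lev L).card = 1 := by
      rw [← mul_pow, one_div, ENNReal.mul_inv_cancel (by simp) (by simp), one_pow]
    have e2 : (2 : ℝ≥0∞) ^ (lev L).card * (1 / 2) ^ (lev n).card = 2 ^ Nat.card (Mid n L) := by
      rw [card_mid hL, pow_add, mul_right_comm, ← mul_pow, one_div,
        ENNReal.mul_inv_cancel (by simp) (by simp), one_pow, one_mul]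
    have h6 : (2 : ℝ≥0∞) ^ (lev L).card * (19 * (1 / 2 : ℝ≥0∞) ^ (lev n).card) <
        2 ^ (lev L).card * (20 * (S.card * (1 / 2) ^ (lev L).card)) :=
      ENNReal.mul_lt_mul_right (by simp) (by simp) h4
    have e3 : (2 : ℝ≥0∞) ^ (lev L).card * (19 * (1 / 2 : ℝ≥0∞) ^ (lev n).card) =
        ((19 * 2 ^ Nat.card (Mid n L) : ℕ) : ℝ≥0∞) := by
      rw [mul_left_comm, e2]
      push_cast
      rfl
    have e4 : (2 : ℝ≥0∞) ^ (lev L).card * (20 * (S.card * (1 / 2) ^ (lev L).card)) =
        ((20 * S.card : ℕ) : ℝ≥0∞) := by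
      calc (2 : ℝ≥0∞) ^ (lev L).card * (20 * (S.card * (1 / 2) ^ (lev L).card)) =
          20 * S.card * (2 ^ (lev L).card * (1 / 2) ^ (lev L).card) := by ring
        _ = _ := by rw [e1, mul_one]; push_cast; rfl
    rw [e3, e4] at h6
    exact_mod_cast h6
  have h6 : Fin.cnt K = S.card := Fin.cnt_eq K
  have h7 : Nat.card (Mid n L → Bool) = Fin.cnt K + Fin.cnt (fun ω => ¬ K ω) := by
    rw [← Fin.cnt_true (P := fun _ : Mid n L → Bool => True) (fun _ => trivial),
      Fin.cnt_split (fun _ : Mid n L → Bool => True) K]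
    simp only [true_and]
  have h8 : Nat.card (Mid n L → Bool) = 2 ^ Nat.card (Mid n L) := Fin.card_pow
  have h9 : 20 * Fin.cnt (fun ω => ¬ K ω) ≤ Nat.card (Mid n L → Bool) := by
    rw [← h8, ← h6] at h5
    generalize Nat.card (Mid n L → Bool) = d at *
    generalize Fin.cnt (fun ω => ¬ K ω) = e at *
    generalize Fin.cnt K = e' at *
    omega
  exact h9

end ESY
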