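import Pool.Agent.Lib.MP_80aaf5_lc.Core

/-!
# The flow argument
-/

set_option linter.unusedSectionVars false

namespace ESY.Fin

namespace Game

variable {I Z W J Q : Type} [Finite I] [Finite Z] [Finite W] [Finite J] (g : Game I Z W J Q)

open Classical in
/-- replace the region `z` of `ω` by that of `v` -/
noncomputable def mix (z : Z) (ω v : I → Bool) : I → Bool :=
  fun i => if ∃ y j, g.b z y j = i then v i else ω i

theorem mix_on (z : Z) (ω v : I → Bool) (y : W) (j : J) :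
    g.mix z ω v (g.b z y j) = v (g.b z y j) := by
  unfold mix
  rw [if_pos ⟨y, j, rfl⟩]

theorem mix_off (z : Z) (ω v : I → Bool) (i : I) (h : ¬ ∃ y j, g.b z y j = i) :
    g.mix z ω v i = ω i := by
  unfold mix
  rw [if_neg h]

theorem mix_mix (z : Z) (ω v u : I → Bool) : g.mix z (g.mix z ω v) u = g.mix z ω u := by
  funext i
  unfold mix
  by_cases h : ∃ y j, g.b z y j = i <;> simp [h]

theorem mix_swap (z : Z) (ω v : I → Bool) : g.mix z (g.mix z ω v) (g.mix z v ω) = ω := by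
  funext i
  unfold mix
  by_cases h : ∃ y j, g.b z y j = i <;> simp [h]

theorem wit_mix (z : Z) (ω v : I → Bool) (y : W) :
    Wit (g.b z) (g.mix z ω v) y ↔ Wit (g.b z) v y := by
  unfold Wit
  refine forall_congr' fun j => ?_
  rw [g.mix_on]

theorem noWit_mix (z : Z) (ω v : I → Bool) : NoWit (g.b z) (g.mix z ω v) ↔ NoWit (g.b z) v := by
  unfold NoWit
  refine forall_congr' fun y => ?_
  rw [g.wit_mix]

theorem plant_mix (z : Z) (ω v : I → Bool) (y : W) :
    plant (g.b z) y (g.mix z ω v) = g.mix z ω (plant (g.b z) y v) := by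
  funext i
  unfold mix plant
  by_cases h : ∃ j, g.b z y j = i
  · obtain ⟨j, rfl⟩ := h
    have h1 : ∃ j', g.b z y j' = g.b z y j := ⟨j, rfl⟩
    have h2 : ∃ y' j', g.b z y' j' = g.b z y j := ⟨y, j, rfl⟩
    simp [h1, h2]
  · simp [h]

/-- swapping the regions `z` of two points -/
noncomputable def swap (z : Z) : (I → Bool) × (I → Bool) ≃ (I → Bool) × (I → Bool) where
  toFun p := (g.mix z p.1 p.2, g.mix z p.2 p.1)
  invFun p := (g.mix z p.1 p.2, g.mix z p.2 p.1)
  left_inv p := by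
    obtain ⟨a, b⟩ := p
    simp only [mix_swap]
  right_inv p := by
    obtain ⟨a, b⟩ := p
    simp only [mix_swap]

/-- exchangeability -/
theorem exchange (z : Z) (P R : (I → Bool) → Prop) :
    cnt (fun p : (I → Bool) × (I → Bool) => P p.1 ∧ R (g.mix z p.1 p.2)) =
      cnt (fun p : (I → Bool) × (I → Bool) => P (g.mix z p.1 p.2) ∧ R p.1) := by
  rw [← cnt_equiv (g.swap z)]
  refine cnt_congr fun p => ?_
  obtain ⟨a, b⟩ := p
  simp only [swap, Equiv.coe_fn_mk, mix_swap]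

/-- Cauchy-Schwarz for the resampled copy -/
theorem cauchy (z : Z) (P : (I → Bool) → Prop) :
    (cnt P : ℝ) ^ 2 ≤
      cnt (fun p : (I → Bool) × (I → Bool) => P p.1 ∧ P (g.mix z p.1 p.2)) := by
  classical
  have := Fintype.ofFinite (I → Bool)
  let f : (I → Bool) → ℝ := fun ω => cnt (fun v => P (g.mix z ω v))
  have hpos : 0 < Fintype.card (I → Bool) := Fintype.card_pos
  set D : ℝ := ((Fintype.card (I → Bool) : ℕ) : ℝ) with hD
  have hDpos : 0 < D := Nat.cast_pos.2 hpos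
  have hcs := sq_sum_le_card_mul_sum_sq (s := (Finset.univ : Finset (I → Bool))) (f := f)
  -- the sum of f
  have h1 : ∑ ω, f ω = D * cnt P := by
    have e1 : cnt (fun p : (I → Bool) × (I → Bool) => P (g.mix z p.1 p.2)) =
        cnt (fun p : (I → Bool) × (I → Bool) => P p.1) := by
      rw [← cnt_equiv (g.swap z) (fun p => P p.1)]
      rfl
    have e2 : cnt (fun p : (I → Bool) × (I → Bool) => P (g.mix z p.1 p.2)) =
        ∑ ω, cnt (fun v => P (g.mix z ω v)) := by rw [cnt_prod]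
    have e3 : cnt (fun p : (I → Bool) × (I → Bool) => P p.1) =
        Fintype.card (I → Bool) * cnt P := by
      rw [cnt_prod']
      simp only [Finset.sum_const, smul_eq_mul, Finset.card_univ]
    calc ∑ ω, f ω = ((∑ ω, cnt (fun v => P (g.mix z ω v)) : ℕ) : ℝ) := by push_cast; rfl
      _ = ((Fintype.card (I → Bool) * cnt P : ℕ) : ℝ) := by rw [← e2, e1, e3]
      _ = D * cnt P := by push_cast; rfl
  -- the sum of the squares
  have h2 : ∑ ω, f ω ^ 2 =
      D * cnt (fun p : (I → Bool) × (I → Bool) => P p.1 ∧ P (g.mix z p.1 p.2)) := by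
    have e1 : ∀ ω, cnt (fun v => P (g.mix z ω v)) ^ 2 =
        cnt (fun q : (I → Bool) × (I → Bool) => P (g.mix z ω q.1) ∧ P (g.mix z ω q.2)) := by
      intro ω
      rw [cnt_prod, pow_two]
      conv_lhs => rw [cnt_eq_sum, Finset.sum_mul]
      refine Finset.sum_congr rfl fun v _ => ?_
      by_cases h : P (g.mix z ω v)
      · rw [if_pos h, one_mul, ← cnt_eq_sum]
        simp only [h, true_and]
      · simp only [h, if_false, zero_mul, false_and]
        rw [cnt_false (fun _ h => h)]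
    have e2 : ∑ ω, cnt (fun q : (I → Bool) × (I → Bool) =>
        P (g.mix z ω q.1) ∧ P (g.mix z ω q.2)) =
        cnt (fun p : (I → Bool) × ((I → Bool) × (I → Bool)) =>
          P (g.mix z p.1 p.2.1) ∧ P (g.mix z p.1 p.2.2)) := by rw [cnt_prod]
    let e : (I → Bool) × ((I → Bool) × (I → Bool)) ≃ (I → Bool) × ((I → Bool) × (I → Bool)) :=
      (Equiv.prodAssoc _ _ _).symm.trans
        (((g.swap z).prodCongr (Equiv.refl _)).trans (Equiv.prodAssoc _ _ _))
    have e3 : cnt (fun p : (I → Bool) × ((I → Bool) × (I → Bool)) =>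
          P (g.mix z p.1 p.2.1) ∧ P (g.mix z p.1 p.2.2)) =
        cnt (fun p : (I → Bool) × ((I → Bool) × (I → Bool)) =>
          P p.1 ∧ P (g.mix z p.1 p.2.2)) := by
      rw [← cnt_equiv e (fun p => P p.1 ∧ P (g.mix z p.1 p.2.2))]
      refine cnt_congr fun p => ?_
      obtain ⟨a, b, d⟩ := p
      simp only [e, swap, Equiv.trans_apply, Equiv.prodAssoc_symm_apply, Equiv.prodCongr_apply,
        Equiv.coe_fn_mk, Prod.map_apply, Equiv.refl_apply, Equiv.prodAssoc_apply, mix_mix]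
    let e' : (I → Bool) × ((I → Bool) × (I → Bool)) ≃ (I → Bool) × ((I → Bool) × (I → Bool)) :=
      ⟨fun p => (p.2.1, p.1, p.2.2), fun p => (p.2.1, p.1, p.2.2), fun _ => rfl, fun _ => rfl⟩
    have e4 : cnt (fun p : (I → Bool) × ((I → Bool) × (I → Bool)) =>
          P p.1 ∧ P (g.mix z p.1 p.2.2)) =
        Fintype.card (I → Bool) *
          cnt (fun p : (I → Bool) × (I → Bool) => P p.1 ∧ P (g.mix z p.1 p.2)) := by
      rw [← cnt_equiv e' (fun p => P p.1 ∧ P (g.mix z p.1 p.2.2)), cnt_prod]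
      simp only [e', Equiv.coe_fn_mk, Finset.sum_const, smul_eq_mul, Finset.card_univ]
    calc ∑ ω, f ω ^ 2 = ((∑ ω, cnt (fun v => P (g.mix z ω v)) ^ 2 : ℕ) : ℝ) := by
          push_cast; rfl
      _ = ((Fintype.card (I → Bool) *
          cnt (fun p : (I → Bool) × (I → Bool) => P p.1 ∧ P (g.mix z p.1 p.2)) : ℕ) : ℝ) := by
          rw [← e4, ← e3, ← e2]
          congr 1
          exact Finset.sum_congr rfl fun ω _ => e1 ω
      _ = _ := by push_cast; rfl
  rw [h1, h2, Finset.card_univ, ← hD] at hcs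
  have h3 : D ^ 2 * (cnt P : ℝ) ^ 2 ≤ D ^ 2 *
      cnt (fun p : (I → Bool) × (I → Bool) => P p.1 ∧ P (g.mix z p.1 p.2)) := by
    nlinarith
  exact le_of_mul_le_mul_left h3 (by positivity)

/-- the good points of the argument -/
def Nice (z : Z) (ω : I → Bool) : Prop :=
  NoWit (g.b z) ω ∧ g.Good ω ∧
    (Nat.card W : ℝ) ≤ 2 * cnt (fun y => g.Good (plant (g.b z) y ω))

theorem nice_bad (hc : 1 ≤ g.c) (hbig : 16 * (g.c : ℝ) ^ 2 ≤ Nat.card W)
    (hJ : 2 ^ Nat.card J = 2 * Nat.card W) (z : Z) (ω : I → Bool) :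
    (cnt (fun v => g.Nice z (g.mix z ω v)) : ℝ) ≤
      256 * (g.c : ℝ) ^ 2 * cnt (fun v => g.Bad (g.mix z ω v)) := by
  set N : ℝ := (Nat.card W : ℝ) with hN
  have hc1 : (1 : ℝ) ≤ g.c := Nat.one_le_cast.2 hc
  have hNpos : 0 < N := by nlinarith
  have h1 := plant_two (g.injb z) (fun v => g.Bad (g.mix z ω v))
  have h2 : (cnt (fun v => g.Nice z (g.mix z ω v)) : ℝ) * (N ^ 2 / (32 * (g.c : ℝ) ^ 2)) ≤
      cnt (fun p : (I → Bool) × (W × W) => NoWit (g.b z) p.1 ∧ p.2.1 ≠ p.2.2 ∧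
      g.Bad (g.mix z ω (plant (g.b z) p.2.1 (plant (g.b z) p.2.2 p.1)))) := by
    refine cnt_prod_ge _ _ _ fun v hv => ?_
    have h3 := g.core hv.1 hv.2.1 hc hbig hv.2.2
    have h4 : cnt (fun p : W × W => p.1 ≠ p.2 ∧
        g.Bad (plant (g.b z) p.1 (plant (g.b z) p.2 (g.mix z ω v)))) =
        cnt (fun p : W × W => NoWit (g.b z) v ∧ p.1 ≠ p.2 ∧
          g.Bad (g.mix z ω (plant (g.b z) p.1 (plant (g.b z) p.2 v)))) := by
      refine cnt_congr fun p => ?_
      rw [plant_mix, plant_mix]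
      simp only [(g.noWit_mix z ω v).1 hv.1, true_and]
    rw [h4] at h3
    rw [div_le_iff₀ (by positivity)]
    linarith
  have h5 : (cnt (fun p : (I → Bool) × (W × W) => NoWit (g.b z) p.1 ∧ p.2.1 ≠ p.2.2 ∧
      g.Bad (g.mix z ω (plant (g.b z) p.2.1 (plant (g.b z) p.2.2 p.1)))) : ℝ) ≤
      8 * N ^ 2 * cnt (fun v => g.Bad (g.mix z ω v)) := by
    rw [hJ] at h1
    calc _ ≤ ((2 * (2 * Nat.card W) ^ 2 * cnt (fun v => g.Bad (g.mix z ω v)) : ℕ) : ℝ) := by
          exact_mod_cast h1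
      _ = _ := by push_cast; ring
  have h6 := h2.trans h5
  have h7 : (cnt (fun v => g.Nice z (g.mix z ω v)) : ℝ) * (N ^ 2 / (32 * (g.c : ℝ) ^ 2)) =
      N ^ 2 * (cnt (fun v => g.Nice z (g.mix z ω v)) / (32 * (g.c : ℝ) ^ 2)) := by ring
  rw [h7] at h6
  have h8 : (cnt (fun v => g.Nice z (g.mix z ω v)) : ℝ) / (32 * (g.c : ℝ) ^ 2) ≤
      8 * cnt (fun v => g.Bad (g.mix z ω v)) := by
    have : 0 < N ^ 2 := by positivity
    refine le_of_mul_le_mul_left (a := N ^ 2) ?_ this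
    linarith
  rw [div_le_iff₀ (by positivity)] at h8
  linarith

/-- flow out of a region -/
theorem flow_low (hc : 1 ≤ g.c) (hbig : 16 * (g.c : ℝ) ^ 2 ≤ Nat.card W)
    (hJ : 2 ^ Nat.card J = 2 * Nat.card W) (z : Z) :
    (cnt (g.Nice z) : ℝ) ^ 2 ≤ 256 * (g.c : ℝ) ^ 2 *
      cnt (fun p : (I → Bool) × (I → Bool) => g.Bad p.1 ∧ ¬ g.Bad (g.mix z p.1 p.2)) := by
  classical
  have := Fintype.ofFinite (I → Bool)
  refine (g.cauchy z (g.Nice z)).trans ?_
  have h1 : (cnt (fun p : (I → Bool) × (I → Bool) => g.Nice z p.1 ∧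
      g.Nice z (g.mix z p.1 p.2)) : ℝ) ≤ 256 * (g.c : ℝ) ^ 2 *
      cnt (fun p : (I → Bool) × (I → Bool) => g.Nice z p.1 ∧ g.Bad (g.mix z p.1 p.2)) := by
    rw [cnt_prod, cnt_prod]
    push_cast
    rw [Finset.mul_sum]
    refine Finset.sum_le_sum fun ω _ => ?_
    by_cases h : g.Nice z ω
    · simp only [h, true_and]
      exact g.nice_bad hc hbig hJ z ω
    · simp only [h, false_and]
      rw [cnt_false (fun _ h => h)]
      simp
  refine h1.trans (mul_le_mul_of_nonneg_left ?_ (by positivity))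
  have h2 := g.exchange z (fun ω => ¬ g.Bad ω) g.Bad
  have h3 : cnt (fun p : (I → Bool) × (I → Bool) => g.Nice z p.1 ∧ g.Bad (g.mix z p.1 p.2)) ≤
      cnt (fun p : (I → Bool) × (I → Bool) => ¬ g.Bad p.1 ∧ g.Bad (g.mix z p.1 p.2)) := by
    refine cnt_mono fun p hp => ⟨fun hb => ?_, hp.2⟩
    obtain ⟨q, hq⟩ := hb
    exact hp.1.2.1.1 q hq
  rw [h2] at h3
  have h4 : cnt (fun p : (I → Bool) × (I → Bool) => ¬ g.Bad (g.mix z p.1 p.2) ∧ g.Bad p.1) =
      cnt (fun p : (I → Bool) × (I → Bool) => g.Bad p.1 ∧ ¬ g.Bad (g.mix z p.1 p.2)) :=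
    cnt_congr fun p => and_comm
  rw [h4] at h3
  exact_mod_cast h3

/-- the total flow is small -/
theorem flow_up : (cnt (fun t : ((I → Bool) × (I → Bool)) × Z =>
      g.Bad t.1.1 ∧ ¬ g.Bad (g.mix t.2 t.1.1 t.1.2)) : ℝ) ≤
      (Nat.card (I → Bool) : ℝ) ^ 2 * (2 * g.c) := by
  classical
  have e : cnt (fun p : (I → Bool) × (I → Bool) => True) = Nat.card (I → Bool) ^ 2 := by
    rw [cnt_true (fun _ => trivial), Nat.card_prod, pow_two]
  have e' : ((Nat.card (I → Bool) : ℝ)) ^ 2 =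
      (cnt (fun p : (I → Bool) × (I → Bool) => True) : ℝ) := by
    rw [e]; push_cast; rfl
  rw [e']
  refine cnt_prod_le _ (fun _ => True) _ (fun _ _ _ => trivial) fun p _ => ?_
  obtain ⟨ω, v⟩ := p
  by_cases hb : g.Bad ω
  · obtain ⟨q, hA, hB⟩ := hb
    obtain ⟨C, hC, hCl⟩ := g.locA ω q hA
    obtain ⟨D, hD, hDl⟩ := g.locB ω q hB
    have h1 : cnt (fun z => g.Bad ω ∧ ¬ g.Bad (g.mix z ω v)) ≤
        cnt (fun z => ∃ i ∈ C ∪ D, ∃ y j, g.b z y j = i) := by
      refine cnt_mono fun z hz => ?_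
      by_contra hcon
      push Not at hcon
      refine hz.2 ⟨q, hCl _ fun i hi => ?_, hDl _ fun i hi => ?_⟩
      · refine g.mix_off z ω v i ?_
        rintro ⟨y, j, h⟩
        exact hcon i (Finset.mem_union_left _ hi) y j h
      · refine g.mix_off z ω v i ?_
        rintro ⟨y, j, h⟩
        exact hcon i (Finset.mem_union_right _ hi) y j h
    have h2 := cnt_exists_le (C ∪ D) (fun (i : I) (z : Z) => ∃ y j, g.b z y j = i) 1
      (fun i _ => by
        exact_mod_cast cnt_le_one (by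
          rintro z z' ⟨y, j, h⟩ ⟨y', j', h'⟩
          exact (g.hb _ _ _ _ _ _ (h.trans h'.symm)).1))
    have h3 : ((C ∪ D).card : ℝ) ≤ 2 * g.c := by
      have : (C ∪ D).card ≤ 2 * g.c := by
        have := Finset.card_union_le C D
        omega
      exact_mod_cast this
    have h4 : (cnt (fun z => g.Bad ω ∧ ¬ g.Bad (g.mix z ω v)) : ℝ) ≤
        cnt (fun z => ∃ i ∈ C ∪ D, ∃ y j, g.b z y j = i) := by exact_mod_cast h1
    simp only
    linarith
  · rw [cnt_false (fun z hz => hb hz.1)]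
    simp

/-- most points are nice -/
theorem nice_large (hJ : 2 ^ Nat.card J = 2 * Nat.card W) (hW : 0 < Nat.card W)
    (hE : 20 * cnt (fun ω => ¬ g.Good ω) ≤ Nat.card (I → Bool)) (z : Z) :
    (Nat.card (I → Bool) : ℝ) ≤ 4 * cnt (g.Nice z) := by
  classical
  set N : ℝ := (Nat.card W : ℝ) with hN
  set D : ℝ := (Nat.card (I → Bool) : ℝ) with hD
  have hNpos : 0 < N := Nat.cast_pos.2 hW
  -- no witness has density at least 1/2
  have h1 : cnt (fun p : W × (I → Bool) => Wit (g.b z) p.2 p.1) * 2 ≤ Nat.card (I → Bool) := by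
    have := Fintype.ofFinite W
    have h2 : cnt (fun p : W × (I → Bool) => Wit (g.b z) p.2 p.1) * (2 * Nat.card W) ≤
        Nat.card W * Nat.card (I → Bool) := by
      rw [cnt_prod, Finset.sum_mul]
      calc ∑ y : W, cnt (fun ω => Wit (g.b z) ω y) * (2 * Nat.card W)
          ≤ ∑ _y : W, Nat.card (I → Bool) := by
            refine Finset.sum_le_sum fun y _ => ?_
            have := card_wit (g.injb z) y
            rw [hJ] at this
            linarith
        _ = Nat.card W * Nat.card (I → Bool) := by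
            simp [Nat.card_eq_fintype_card]
    have h3 : Nat.card W * (cnt (fun p : W × (I → Bool) => Wit (g.b z) p.2 p.1) * 2) ≤
        Nat.card W * Nat.card (I → Bool) := by
      calc _ = cnt (fun p : W × (I → Bool) => Wit (g.b z) p.2 p.1) * (2 * Nat.card W) := by ring
        _ ≤ _ := h2
    exact Nat.le_of_mul_le_mul_left h3 hW
  have h2 : Nat.card (I → Bool) ≤ cnt (NoWit (g.b z)) +
      cnt (fun p : W × (I → Bool) => Wit (g.b z) p.2 p.1) := by
    have e1 : cnt (fun ω => ∃ y, Wit (g.b z) ω y) ≤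
        cnt (fun p : W × (I → Bool) => Wit (g.b z) p.2 p.1) := by
      have hch : ∀ ω : I → Bool, ∃ y : W, (∃ y, Wit (g.b z) ω y) → Wit (g.b z) ω y := by
        intro ω
        by_cases h : ∃ y, Wit (g.b z) ω y
        · obtain ⟨y, hy⟩ := h
          exact ⟨y, fun _ => hy⟩
        · have : Nonempty W := (Nat.card_pos_iff.1 hW).1
          exact ⟨this.some, fun h' => absurd h' h⟩
      choose f hf using hch
      refine cnt_inj (fun ω => (f ω, ω)) (fun ω h => hf ω h) ?_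
      intro a a' _ _ h
      exact (Prod.mk.inj h).2
    have e2 : Nat.card (I → Bool) = cnt (fun _ : I → Bool => True) :=
      (cnt_true (fun _ => trivial)).symm
    rw [e2]
    refine le_trans (cnt_mono fun ω _ => ?_) ((cnt_or (NoWit (g.b z))
      (fun ω => ∃ y, Wit (g.b z) ω y)).trans (Nat.add_le_add_left e1 _))
    by_cases h : ∃ y, Wit (g.b z) ω y
    · exact Or.inr h
    · exact Or.inl fun y hy => h ⟨y, hy⟩
  -- few points have many bad plantings
  let L : (I → Bool) → Prop := fun ω => NoWit (g.b z) ω ∧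
    2 * (cnt (fun y => g.Good (plant (g.b z) y ω)) : ℝ) < N
  have h3 : (cnt L : ℝ) * (N / 2) ≤ 2 * N * cnt (fun ω => ¬ g.Good ω) := by
    have a1 := plant_one (g.injb z) (fun ω => ¬ g.Good ω)
    rw [hJ] at a1
    have a2 : (cnt (fun p : W × (I → Bool) => NoWit (g.b z) p.2 ∧
        ¬ g.Good (plant (g.b z) p.1 p.2)) : ℝ) ≤ 2 * N * cnt (fun ω => ¬ g.Good ω) := by
      calc _ ≤ ((2 * Nat.card W * cnt (fun ω => ¬ g.Good ω) : ℕ) : ℝ) := by exact_mod_cast a1
        _ = _ := by push_cast; rfl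
    refine le_trans ?_ a2
    have a3 : cnt (fun p : W × (I → Bool) => NoWit (g.b z) p.2 ∧
        ¬ g.Good (plant (g.b z) p.1 p.2)) =
        cnt (fun p : (I → Bool) × W => NoWit (g.b z) p.1 ∧
        ¬ g.Good (plant (g.b z) p.2 p.1)) :=
      (cnt_equiv (Equiv.prodComm _ _) (fun p : (I → Bool) × W => NoWit (g.b z) p.1 ∧
        ¬ g.Good (plant (g.b z) p.2 p.1)))
    rw [a3]
    refine cnt_prod_ge _ _ _ fun ω hω => ?_
    have a4 := cnt_split (fun _ : W => True) (fun y => g.Good (plant (g.b z) y ω))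
    rw [cnt_true (P := fun _ : W => True) (fun _ => trivial)] at a4
    simp only [true_and] at a4
    have a5 : (N : ℝ) = cnt (fun y => g.Good (plant (g.b z) y ω)) +
        cnt (fun y => ¬ g.Good (plant (g.b z) y ω)) := by
      rw [hN, a4]
      push_cast
      rfl
    have a6 := hω.2
    simp only [hω.1, true_and]
    linarith
  have h4 : cnt (NoWit (g.b z)) ≤ cnt (g.Nice z) + (cnt (fun ω => ¬ g.Good ω) + cnt L) := by
    refine le_trans (cnt_mono fun ω hω => ?_) ((cnt_or (g.Nice z)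
      (fun ω => ¬ g.Good ω ∨ L ω)).trans (Nat.add_le_add_left (cnt_or _ L) _))
    by_cases h1 : g.Good ω
    · by_cases h2 : L ω
      · exact Or.inr (Or.inr h2)
      · left
        refine ⟨hω, h1, ?_⟩
        by_contra h3
        exact h2 ⟨hω, not_le.1 h3⟩
    · exact Or.inr (Or.inl h1)
  have h5 : (cnt L : ℝ) ≤ 4 * cnt (fun ω => ¬ g.Good ω) := by
    have : (cnt L : ℝ) * N ≤ (4 * cnt (fun ω => ¬ g.Good ω)) * N := by linarith
    exact le_of_mul_le_mul_right this hNpos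
  have h1' : (cnt (fun p : W × (I → Bool) => Wit (g.b z) p.2 p.1) : ℝ) * 2 ≤ D := by
    rw [hD]; exact_mod_cast h1
  have h2' : D ≤ cnt (NoWit (g.b z)) +
      cnt (fun p : W × (I → Bool) => Wit (g.b z) p.2 p.1) := by rw [hD]; exact_mod_cast h2
  have h4' : (cnt (NoWit (g.b z)) : ℝ) ≤
      cnt (g.Nice z) + (cnt (fun ω => ¬ g.Good ω) + cnt L) := by exact_mod_cast h4
  have hE' : 20 * (cnt (fun ω => ¬ g.Good ω) : ℝ) ≤ D := by rw [hD]; exact_mod_cast hE
  linarith

/-- **The finite theorem.** If the pair is disjoint and the reduction works at 19/20 of all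
points, then there are few regions. -/
theorem finite_main (hc : 1 ≤ g.c) (hbig : 16 * (g.c : ℝ) ^ 2 ≤ Nat.card W)
    (hJ : 2 ^ Nat.card J = 2 * Nat.card W)
    (hE : 20 * cnt (fun ω => ¬ g.Good ω) ≤ Nat.card (I → Bool)) :
    (Nat.card Z : ℝ) ≤ 8192 * (g.c : ℝ) ^ 3 := by
  classical
  have := Fintype.ofFinite Z
  set D : ℝ := (Nat.card (I → Bool) : ℝ) with hD
  have hDpos : 0 < D := by
    have : 0 < Nat.card (I → Bool) := Nat.card_pos
    exact Nat.cast_pos.2 this
  have hc1 : (1 : ℝ) ≤ g.c := Nat.one_le_cast.2 hc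
  have hW : 0 < Nat.card W := by
    have : (0 : ℝ) < Nat.card W := by nlinarith
    exact_mod_cast this
  have h1 : ∀ z : Z, D ^ 2 / 16 ≤ 256 * (g.c : ℝ) ^ 2 *
      cnt (fun p : (I → Bool) × (I → Bool) => g.Bad p.1 ∧ ¬ g.Bad (g.mix z p.1 p.2)) := by
    intro z
    refine le_trans ?_ (g.flow_low hc hbig hJ z)
    have := g.nice_large hJ hW hE z
    nlinarith
  have h2 := g.flow_up
  rw [cnt_prod'] at h2
  push_cast at h2
  have h3 : ∑ _z : Z, D ^ 2 / 16 ≤ ∑ z : Z, 256 * (g.c : ℝ) ^ 2 *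
      cnt (fun p : (I → Bool) × (I → Bool) => g.Bad p.1 ∧ ¬ g.Bad (g.mix z p.1 p.2)) :=
    Finset.sum_le_sum fun z _ => h1 z
  rw [← Finset.mul_sum] at h3
  have h4 : ∑ _z : Z, D ^ 2 / 16 = Nat.card Z * (D ^ 2 / 16) := by
    simp [Nat.card_eq_fintype_card]
  rw [h4] at h3
  have h5 : (Nat.card Z : ℝ) * (D ^ 2 / 16) ≤ 256 * (g.c : ℝ) ^ 2 * (D ^ 2 * (2 * g.c)) :=
    h3.trans (mul_le_mul_of_nonneg_left h2 (by positivity))
  have h6 : D ^ 2 * (Nat.card Z : ℝ) ≤ D ^ 2 * (8192 * (g.c : ℝ) ^ 3) := by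
    nlinarith
  exact le_of_mul_le_mul_left h6 (by positivity)

end Game

end ESY.Fin
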