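import Pool.Agent.Lib.MP_80aaf5_lc.Verifier

/-!
# Locality of computations, and the query strings
-/

namespace ESY

/-! ### the query strings -/

theorem inter_length : ∀ (x w acc : List Bool), w.length = x.length →
    (inter x w acc).length = 2 * x.length + acc.length := by
  intro x
  induction x with
  | nil => intro w acc _; simp [inter]
  | cons a x ih =>
    intro w acc h
    cases w with
    | nil => simp at h
    | cons b w =>
      have hl : w.length = x.length := by simpa using h
      simp only [inter]
      rw [ih w _ hl]
      simp only [List.length_cons]
      ring

theorem inter_inj : ∀ (x w acc x' w' acc' : List Bool), w.length = x.length →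
    x'.length = x.length → w'.length = x.length → acc'.length = acc.length →
    inter x w acc = inter x' w' acc' → x = x' ∧ w = w' ∧ acc = acc' := by
  intro x
  induction x with
  | nil =>
    intro w acc x' w' acc' h1 h2 h3 h4 h
    have e1 : w = [] := List.length_eq_zero_iff.1 h1
    have e2 : x' = [] := List.length_eq_zero_iff.1 h2
    have e3 : w' = [] := List.length_eq_zero_iff.1 h3
    subst e1 e2 e3
    simpa [inter] using h
  | cons a x ih =>
    intro w acc x' w' acc' h1 h2 h3 h4 h
    cases w with
    | nil => simp at h1
    | cons b w =>
    cases x' with
    | nil => simp at h2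
    | cons a' x' =>
    cases w' with
    | nil => simp at h3
    | cons b' w' =>
      simp only [List.length_cons, Nat.add_right_cancel_iff] at h1 h2 h3
      simp only [inter] at h
      obtain ⟨e1, e2, e3⟩ := ih w _ x' w' _ h1 h2 h3 (by simp [h4]) h
      have e4 := List.cons.inj e3
      have e5 := List.cons.inj e4.2
      exact ⟨by rw [e1, e5.1], by rw [e2, e4.1], e5.2⟩

theorem qstr_length (x w : List Bool) (j : ℕ) (h : w.length = x.length) :
    (qstr x w j).length = j + 1 + 2 * x.length := by
  unfold qstr
  rw [List.length_append, List.length_replicate, inter_length x w [] h]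
  simp

theorem qstr_inj {x w x' w' : List Bool} {j j' : ℕ} (h1 : w.length = x.length)
    (h2 : x'.length = x.length) (h3 : w'.length = x.length) (h : qstr x w j = qstr x' w' j') :
    x = x' ∧ w = w' ∧ j = j' := by
  have hl := congrArg List.length h
  rw [qstr_length x w j h1, qstr_length x' w' j' (h3.trans h2.symm), h2] at hl
  have hj : j = j' := by omega
  subst hj
  have := List.append_cancel_left h
  obtain ⟨e1, e2, -⟩ := inter_inj x w [] x' w' [] h1 h2 h3 rfl this
  exact ⟨e1, e2, rfl⟩

theorem qstr_cons (x w : List Bool) (j : ℕ) :
    qstr x w j = true :: (List.replicate j true ++ inter x w []) := rfl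

/-! ### locality -/

/-- the query asked in one step -/
def asked1 (M : Machine) (c : Cfg M) : List (List Bool) :=
  match M.code c.state with
  | .query i _ _ => [c.stack i]
  | _ => []

/-- the queries asked in `t` steps -/
def asked (O : Oracle) (M : Machine) : ℕ → Cfg M → List (List Bool)
  | 0, _ => []
  | t + 1, c => asked1 M c ++ asked O M t (step O M c)

theorem step_congr {O O' : Oracle} {M : Machine} {c : Cfg M}
    (h : ∀ s ∈ asked1 M c, O' s = O s) : step O' M c = step O M c := by
  unfold step
  unfold asked1 at h
  cases hc : M.code c.state with
  | push i b n => rfl
  | pop i a b d => rfl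
  | query i a b =>
    rw [hc] at h
    have := h (c.stack i) (by simp)
    simp only [this]
  | halt b => rfl

theorem run_congr {O O' : Oracle} {M : Machine} : ∀ (t : ℕ) (c : Cfg M),
    (∀ s ∈ asked O M t c, O' s = O s) → (step O' M)^[t] c = (step O M)^[t] c := by
  intro t
  induction t with
  | zero => intro c _; rfl
  | succ t ih =>
    intro c h
    rw [Function.iterate_succ_apply, Function.iterate_succ_apply,
      step_congr (fun s hs => h s (List.mem_append_left _ hs))]
    exact ih _ fun s hs => h s (List.mem_append_right _ hs)

theorem asked_card (O : Oracle) (M : Machine) : ∀ (t : ℕ) (c : Cfg M),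
    (asked O M t c).length ≤ t := by
  intro t
  induction t with
  | zero => intro c; rfl
  | succ t ih =>
    intro c
    have h1 := ih (step O M c)
    have h2 : (asked1 M c).length ≤ 1 := by
      unfold asked1
      cases M.code c.state <;> simp
    simp only [asked, List.length_append]
    omega

theorem step_len (O : Oracle) (M : Machine) (c : Cfg M) (m : ℕ)
    (h : ∀ i, (c.stack i).length ≤ m) : ∀ i, ((step O M c).stack i).length ≤ m + 1 := by
  intro i
  have hi := h i
  unfold step
  cases hc : M.code c.state with
  | push j b n =>
    simp only [Function.update_apply]
    by_cases hij : i = j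
    · simp only [hij, if_true, List.length_cons]
      have := h j
      omega
    · simp only [hij, if_false]
      omega
  | pop j a b d =>
    simp only
    have hj := h j
    rcases hs : c.stack j with _ | ⟨_ | _, s⟩
    · simp only
      omega
    · rw [hs] at hj
      simp only [Function.update_apply]
      simp only [List.length_cons] at hj
      by_cases hij : i = j
      · simp only [hij, if_true]
        omega
      · simp only [hij, if_false]
        omega
    · rw [hs] at hj
      simp only [Function.update_apply]
      simp only [List.length_cons] at hj
      by_cases hij : i = j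
      · simp only [hij, if_true]
        omega
      · simp only [hij, if_false]
        omega
  | query j a b => simp only; omega
  | halt b => simp only; omega

theorem asked_len (O : Oracle) (M : Machine) : ∀ (t : ℕ) (c : Cfg M) (m : ℕ),
    (∀ i, (c.stack i).length ≤ m) → ∀ s ∈ asked O M t c, s.length ≤ m + t := by
  intro t
  induction t with
  | zero => intro c m _ s hs; simp [asked] at hs
  | succ t ih =>
    intro c m h s hs
    simp only [asked, List.mem_append] at hs
    rcases hs with hs | hs
    · unfold asked1 at hs
      cases hc : M.code c.state with
      | query j a b =>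
        rw [hc] at hs
        simp only [List.mem_singleton] at hs
        rw [hs]
        have := h j
        omega
      | push j a b => rw [hc] at hs; simp at hs
      | pop j a b d => rw [hc] at hs; simp at hs
      | halt b => rw [hc] at hs; simp at hs
    · have := ih (step O M c) (m + 1) (step_len O M c m h) s hs
      omega

theorem start_len (M : Machine) (x w : List Bool) (m : ℕ) (hx : x.length ≤ m)
    (hw : w.length ≤ m) : ∀ i, ((start M x w).stack i).length ≤ m := by
  intro i
  unfold start
  simp only
  split_ifs
  · exact hx
  · exact hw
  · simp

/-- Acceptance within `t` steps depends on at most `t` oracle values, at bounded arguments. -/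
theorem accepts_local (O : Oracle) (M : Machine) (x w : List Bool) (t : ℕ) :
    ∃ F : Finset (List Bool), F.card ≤ t ∧ (∀ s ∈ F, s.length ≤ max x.length w.length + t) ∧
      ∀ O' : Oracle, (∀ s ∈ F, O' s = O s) → (AcceptsIn O' M x w t ↔ AcceptsIn O M x w t) := by
  classical
  refine ⟨(asked O M t (start M x w)).toFinset, ?_, ?_, ?_⟩
  · exact (List.toFinset_card_le _).trans (asked_card O M t _)
  · intro s hs
    exact asked_len O M t _ _ (start_len M x w _ (le_max_left _ _) (le_max_right _ _)) s
      (List.mem_toFinset.1 hs)
  · intro O' h
    unfold AcceptsIn
    rw [run_congr t _ fun s hs => h s (List.mem_toFinset.2 hs)]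

end ESY
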