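import Pool.Agent.Lib.MP_80aaf5_lc.Density
import Pool.Agent.Lib.MP_80aaf5_lc.Growth
import Pool.Agent.Lib.MP_80aaf5_lc.Flow

/-!
# The main theorem
-/

namespace ESY

open Filter MeasureTheory

/-- A construction of an oracle from the random one, each bit depending on one random bit. -/
structure Tame (C : Oracle → Oracle) where
  src : List Bool → List Bool
  src_len : ∀ x, (src x).length ≤ x.length
  dep : ∀ R R' x, R (src x) = R' (src x) → C R x = C R' x
  h : List Bool → List Bool
  h_inj : Function.Injective h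
  h_len : ∀ u, u.length ≤ (h u).length ∧ (h u).length ≤ u.length + 1
  h_eq : ∀ R u, C R (true :: u) = R (h u)

/-- the random oracle itself -/
def tameId : Tame (fun R => R) where
  src x := x
  src_len _ := le_rfl
  dep _ _ _ h := h
  h u := true :: u
  h_inj := fun a b h => (List.cons.inj h).2
  h_len u := by simp
  h_eq _ _ := rfl

/-- the join with a fixed oracle -/
def tameJoin (X : Oracle) : Tame (fun R => join X R) where
  src x := x.tail
  src_len x := by simp
  dep R R' x h := by
    match x, h with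
    | [], _ => rfl
    | false :: x, _ => rfl
    | true :: x, h => exact h
  h u := u
  h_inj := fun a b h => h
  h_len u := by simp
  h_eq _ _ := rfl

/-- the language accepted by a nondeterministic machine -/
def NPset (O : Oracle) (M : Machine) (c : ℕ) : Set (List Bool) :=
  {x | ∃ w : List Bool, w.length ≤ poly c x.length ∧ AcceptsIn O M x w (poly c x.length)}

theorem poly_mono (c : ℕ) {m n : ℕ} (h : m ≤ n) : poly c m ≤ poly c n :=
  Nat.add_le_add_right (Nat.pow_le_pow_left h c) c

/-- membership in an NP set depends on bounded oracle values only -/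
theorem npset_congr {O O' : Oracle} (M : Machine) (c : ℕ) (q : List Bool) (L : ℕ)
    (hL : q.length + 2 * poly c q.length < L) (h : ∀ x : List Bool, x.length < L → O' x = O x) :
    q ∈ NPset O' M c ↔ q ∈ NPset O M c := by
  unfold NPset
  simp only [Set.mem_ofPred_eq]
  refine exists_congr fun w => and_congr_right fun hw => ?_
  obtain ⟨F, -, hF, hF'⟩ := accepts_local O M q w (poly c q.length)
  refine hF' O' fun s hs => h s ?_
  have := hF s hs
  have : max q.length w.length ≤ q.length + poly c q.length := max_le (by omega) (by omega)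
  omega

/-- certificates for NP sets -/
theorem npset_cert {O : Oracle} (M : Machine) (c : ℕ) (q : List Bool) (hq : q ∈ NPset O M c) :
    ∃ F : Finset (List Bool), F.card ≤ poly c q.length ∧
      ∀ O' : Oracle, (∀ s ∈ F, O' s = O s) → q ∈ NPset O' M c := by
  obtain ⟨w, hw, ha⟩ := hq
  obtain ⟨F, h1, -, h3⟩ := accepts_local O M q w (poly c q.length)
  exact ⟨F, h1, fun O' h => ⟨w, hw, (h3 O' h).2 ha⟩⟩

/-- An oracle predicate `N O x` (the reduction says that `x` is not in the test language) with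
certificates of size `t`, and which depends on finitely many oracle values. -/
structure Loc (N : Oracle → List Bool → Prop) (t : ℕ → ℕ) : Prop where
  cert : ∀ O x, N O x → ∃ F : Finset (List Bool), F.card ≤ t x.length ∧
    (∀ s ∈ F, s.length ≤ x.length + 2 * t x.length) ∧
      ∀ O' : Oracle, (∀ s ∈ F, O' s = O s) → N O' x
  fin : ∀ O x, ∃ F : Finset (List Bool), ∀ O' : Oracle, (∀ s ∈ F, O' s = O s) →
    (N O' x ↔ N O x)

/-- deterministic machines say no by not accepting -/
theorem loc_det (M : Machine) (t : ℕ → ℕ) :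
    Loc (fun O x => ¬ AcceptsIn O M x [] (t x.length)) t where
  cert O x h := by
    obtain ⟨F, h1, h2, h3⟩ := accepts_local O M x [] (t x.length)
    refine ⟨F, h1, fun s hs => ?_, fun O' h' h'' => h ((h3 O' h').1 h'')⟩
    have := h2 s hs
    simp only [List.length_nil, Nat.max_zero] at this
    omega
  fin O x := by
    obtain ⟨F, h1, h2, h3⟩ := accepts_local O M x [] (t x.length)
    exact ⟨F, fun O' h' => not_congr (h3 O' h')⟩

/-- nondeterministic machines for the complement -/
theorem loc_nondet (M : Machine) (t : ℕ → ℕ) :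
    Loc (fun O x => ∃ w : List Bool, w.length ≤ t x.length ∧ AcceptsIn O M x w (t x.length))
      t where
  cert O x h := by
    obtain ⟨w, hw, h⟩ := h
    obtain ⟨F, h1, h2, h3⟩ := accepts_local O M x w (t x.length)
    refine ⟨F, h1, fun s hs => ?_, fun O' h' => ⟨w, hw, (h3 O' h').2 h⟩⟩
    have := h2 s hs
    have : max x.length w.length ≤ x.length + t x.length := max_le (by omega) (by omega)
    omega
  fin O x := by
    classical
    have hch := fun w : List Bool => accepts_local O M x w (t x.length)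
    choose F h1 h2 h3 using hch
    refine ⟨(lev (t x.length + 1)).biUnion F, fun O' h' => ?_⟩
    refine exists_congr fun w => and_congr_right fun hw => ?_
    exact h3 w O' fun s hs =>
      h' s (Finset.mem_biUnion.2 ⟨w, mem_lev.2 (Nat.lt_succ_of_le hw), hs⟩)

section finite

variable {C : Oracle → Oracle} (tC : Tame C) {N : Oracle → List Bool → Prop} {t : ℕ → ℕ}
  (hN : Loc N t) (MA : Machine) (cA : ℕ) (MB : Machine) (cB : ℕ)
  (P1 P0 : Finset (List Bool))

/-- the first set, enlarged by a finite set -/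
def setA (P1 : Finset (List Bool)) (MA : Machine) (cA : ℕ) (C : Oracle → Oracle) (R : Oracle) :
    Set (List Bool) := {q | q ∈ NPset (C R) MA cA ∨ q ∈ P1}

/-- the oracles at which the pair is disjoint and the reduction works -/
def badSet (C : Oracle → Oracle) (N : Oracle → List Bool → Prop)
    (MA : Machine) (cA : ℕ) (MB : Machine) (cB : ℕ) (P1 P0 : Finset (List Bool)) : Set Oracle :=
  {R | (∀ q, ¬ (q ∈ setA P1 MA cA C R ∧ q ∈ setA P0 MB cB C R)) ∧
    ∀ S : Oracle, (∀ q ∈ setA P1 MA cA C R, S q = true) →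
      (∀ q ∈ setA P0 MB cB C R, S q = false) →
      ∀ x, N (join (C R) S) x ↔ x ∉ Test (C R)}

variable (n₀ : ℕ) (f : Oracle) (n b L : ℕ)

open Classical in
/-- extend a finite pattern by the fixed oracle -/
noncomputable def ext (ω : Mid n₀ L → Bool) : Oracle := fun x =>
  if h : n₀ ≤ x.length ∧ x.length < L then ω ⟨x, h⟩ else f x

/-- strings of length at most `b` -/
abbrev Short (b : ℕ) : Type := {q : List Bool // q.length ≤ b}

open Classical in
/-- extend a finite separator by zero -/
noncomputable def extS (S : Short b → Bool) : Oracle := fun q =>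
  if h : q.length ≤ b then S ⟨q, h⟩ else false

variable {n₀ f n b L}

open Classical in
/-- the relevant coordinates among those that a set of queries touches -/
noncomputable def coords (tC : Tame C) (n₀ L : ℕ) (F : Finset (List Bool)) :
    Finset (Mid n₀ L) := (F.image tC.src).subtype fun x => n₀ ≤ x.length ∧ x.length < L

theorem coords_card (F : Finset (List Bool)) : (coords tC n₀ L F).card ≤ F.card := by
  classical
  unfold coords
  rw [Finset.card_subtype]
  exact (Finset.card_filter_le _ _).trans Finset.card_image_le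

theorem coords_spec (F : Finset (List Bool)) (ω ω' : Mid n₀ L → Bool)
    (h : ∀ i ∈ coords tC n₀ L F, ω' i = ω i) :
    ∀ s ∈ F, C (ext n₀ f L ω') s = C (ext n₀ f L ω) s := by
  classical
  intro s hs
  refine tC.dep _ _ s ?_
  unfold ext
  by_cases hh : n₀ ≤ (tC.src s).length ∧ (tC.src s).length < L
  · rw [dif_pos hh, dif_pos hh]
    refine h _ ?_
    unfold coords
    rw [Finset.mem_subtype]
    exact Finset.mem_image_of_mem _ hs
  · rw [dif_neg hh, dif_neg hh]

include tC in
theorem cert_fin (P : Finset (List Bool)) (MA : Machine) (cA : ℕ) (ω : Mid n₀ L → Bool)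
    (q : List Bool) (hq : q ∈ setA P MA cA C (ext n₀ f L ω)) :
    ∃ F : Finset (Mid n₀ L), F.card ≤ poly cA q.length ∧ ∀ ω' : Mid n₀ L → Bool,
      (∀ i ∈ F, ω' i = ω i) → q ∈ setA P MA cA C (ext n₀ f L ω') := by
  rcases hq with hq | hq
  · obtain ⟨F, h1, h2⟩ := npset_cert MA cA q hq
    exact ⟨coords tC n₀ L F, (coords_card tC F).trans h1,
      fun ω' h => Or.inl (h2 _ (coords_spec tC F ω ω' h))⟩
  · exact ⟨∅, by simp, fun _ _ => Or.inr hq⟩

include tC hN in
theorem loc_fin (ω : Mid n₀ L → Bool) (S : Short b → Bool) (x : List Bool)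
    (hx : N (join (C (ext n₀ f L ω)) (extS b S)) x) :
    ∃ (F : Finset (Mid n₀ L)) (G : Finset (Short b)), F.card ≤ t x.length ∧
      G.card ≤ t x.length ∧
      ∀ ω' S', (∀ i ∈ F, ω' i = ω i) → (∀ q ∈ G, S' q = S q) →
        N (join (C (ext n₀ f L ω')) (extS b S')) x := by
  classical
  obtain ⟨F, h1, -, h3⟩ := hN.cert _ x hx
  refine ⟨coords tC n₀ L (F.image List.tail), (F.image List.tail).subtype fun q => q.length ≤ b,
    ?_, ?_, fun ω' S' hω hS => h3 _ fun s hs => ?_⟩
  · exact (coords_card tC _).trans (Finset.card_image_le.trans h1)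
  · rw [Finset.card_subtype]
    exact (Finset.card_filter_le _ _).trans (Finset.card_image_le.trans h1)
  · match s, hs with
    | [], _ => rfl
    | false :: s, hs =>
      exact coords_spec tC _ ω ω' hω s (Finset.mem_image_of_mem List.tail hs)
    | true :: s, hs =>
      change extS b S' s = extS b S s
      unfold extS
      by_cases h : s.length ≤ b
      · rw [dif_pos h, dif_pos h]
        refine hS _ ?_
        rw [Finset.mem_subtype]
        exact Finset.mem_image_of_mem List.tail hs
      · rw [dif_neg h, dif_neg h]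

/-- vectors of length `n` -/
abbrev Vec (n : ℕ) : Type := {x : List Bool // x.length = n}

instance (n : ℕ) : Finite (Vec n) :=
  Finite.of_injective (fun x : Vec n => (⟨x.1, mem_lev.2 (by rw [x.2]; exact Nat.lt_succ_self n)⟩ :
    lev (n + 1))) fun _ _ h => Subtype.ext (congrArg (fun y : lev (n + 1) => y.1) h)

theorem card_vec (n : ℕ) : Nat.card (Vec n) = 2 ^ n := by
  have : Nat.card (List.Vector Bool n) = 2 ^ n := by
    rw [Nat.card_eq_fintype_card, card_vector, Fintype.card_bool]
  exact this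

/-- the coordinates of the test language -/
def blk (tC : Tame C) (h1 : n₀ ≤ 2 * n) (h2 : 3 * n + 1 < L) (z w : Vec n)
    (j : _root_.Fin (n + 1)) : Mid n₀ L :=
  ⟨tC.h (List.replicate j true ++ inter z.1 w.1 []), by
    have e1 := inter_length z.1 w.1 [] (by rw [w.2, z.2])
    have e2 := tC.h_len (List.replicate j true ++ inter z.1 w.1 [])
    rw [List.length_append, List.length_replicate, e1, z.2] at e2
    simp only [List.length_nil, add_zero] at e2
    have := j.2
    omega⟩

theorem blk_inj (h1 : n₀ ≤ 2 * n) (h2 : 3 * n + 1 < L) (z z' w w' : Vec n)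
    (j j' : _root_.Fin (n + 1)) (h : blk tC h1 h2 z w j = blk tC h1 h2 z' w' j') :
    z = z' ∧ w = w' ∧ j = j' := by
  have e := tC.h_inj (congrArg Subtype.val h)
  have e' : qstr z.1 w.1 j = qstr z'.1 w'.1 j' := by
    rw [qstr_cons, qstr_cons, e]
  obtain ⟨a1, a2, a3⟩ := qstr_inj (by rw [w.2, z.2]) (by rw [z'.2, z.2]) (by rw [w'.2, z.2]) e'
  exact ⟨Subtype.ext a1, Subtype.ext a2, Fin.ext a3⟩

/-- the finite game -/
noncomputable def game (tC : Tame C) (hN : Loc N t)
    (MA : Machine) (cA : ℕ) (MB : Machine) (cB : ℕ)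
    (P1 P0 : Finset (List Bool)) (f : Oracle) (h1 : n₀ ≤ 2 * n) (h2 : 3 * n + 1 < L) :
    Fin.Game (Mid n₀ L) (Vec n) (Vec n) (_root_.Fin (n + 1)) (Short (n + 2 * t n)) where
  b := blk tC h1 h2
  hb z z' y y' j j' h := blk_inj tC h1 h2 z z' y y' j j' h
  A ω q := q.1 ∈ setA P1 MA cA C (ext n₀ f L ω)
  B ω q := q.1 ∈ setA P0 MB cB C (ext n₀ f L ω)
  M ω S z := N (join (C (ext n₀ f L ω)) (extS (n + 2 * t n) S)) z.1
  c := t n + poly cA (n + 2 * t n) + poly cB (n + 2 * t n) + 1
  locA ω q hq := by
    obtain ⟨F, h3, h4⟩ := cert_fin tC P1 MA cA ω q.1 hq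
    refine ⟨F, ?_, h4⟩
    have := poly_mono cA q.2
    omega
  locB ω q hq := by
    obtain ⟨F, h3, h4⟩ := cert_fin tC P0 MB cB ω q.1 hq
    refine ⟨F, ?_, h4⟩
    have := poly_mono cB q.2
    omega
  locM ω S z hz := by
    obtain ⟨F, G, h3, h4, h5⟩ := loc_fin tC hN (f := f) ω S z.1 hz
    rw [z.2] at h3 h4
    exact ⟨F, G, by omega, by omega, h5⟩

theorem game_good (h1 : n₀ ≤ 2 * n) (h2 : 3 * n + 1 < L)
    (hA : (n + 2 * t n) + 2 * poly cA (n + 2 * t n) < L)
    (hB : (n + 2 * t n) + 2 * poly cB (n + 2 * t n) < L) (ω : Mid n₀ L → Bool) (R : Oracle)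
    (hR : R ∈ badSet C N MA cA MB cB P1 P0)
    (hf : ∀ x : List Bool, x.length < n₀ → R x = f x) (hω : ∀ i : Mid n₀ L, R i.1 = ω i) :
    (game tC hN MA cA MB cB P1 P0 f h1 h2).Good ω := by
  classical
  obtain ⟨hR1, hR2⟩ := hR
  -- agreement below L
  have hag : ∀ x : List Bool, x.length < L → R x = ext n₀ f L ω x := by
    intro x hx
    unfold ext
    by_cases h : n₀ ≤ x.length ∧ x.length < L
    · rw [dif_pos h]
      exact hω ⟨x, h⟩
    · rw [dif_neg h]
      exact hf x (by by_contra h'; exact h ⟨not_lt.1 h', hx⟩)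
  have hagC : ∀ x : List Bool, x.length < L → C R x = C (ext n₀ f L ω) x := fun x hx =>
    tC.dep _ _ x (hag _ ((tC.src_len x).trans_lt hx))
  have hsetA : ∀ q : List Bool, q.length ≤ n + 2 * t n →
      (q ∈ setA P1 MA cA C R ↔ q ∈ setA P1 MA cA C (ext n₀ f L ω)) := by
    intro q hq
    have e := npset_congr (O := C (ext n₀ f L ω)) (O' := C R) MA cA q L (by
      have := poly_mono cA hq
      omega) hagC
    unfold setA
    simp only [Set.mem_ofPred_eq]
    rw [e]
  have hsetB : ∀ q : List Bool, q.length ≤ n + 2 * t n →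
      (q ∈ setA P0 MB cB C R ↔ q ∈ setA P0 MB cB C (ext n₀ f L ω)) := by
    intro q hq
    have e := npset_congr (O := C (ext n₀ f L ω)) (O' := C R) MB cB q L (by
      have := poly_mono cB hq
      omega) hagC
    unfold setA
    simp only [Set.mem_ofPred_eq]
    rw [e]
  refine ⟨fun q hq => hR1 q.1 ⟨(hsetA q.1 q.2).2 hq.1, (hsetB q.1 q.2).2 hq.2⟩, ?_⟩
  intro S hSA hSB z
  let S' : Oracle := fun q => if h : q.length ≤ n + 2 * t n then S ⟨q, h⟩
    else decide (q ∈ setA P1 MA cA C R)
  have hS'A : ∀ q ∈ setA P1 MA cA C R, S' q = true := by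
    intro q hq
    by_cases h : q.length ≤ n + 2 * t n
    · simp only [S', h, dite_true]
      exact hSA ⟨q, h⟩ ((hsetA q h).1 hq)
    · simp only [S', h, dite_false]
      simpa using hq
  have hS'B : ∀ q ∈ setA P0 MB cB C R, S' q = false := by
    intro q hq
    by_cases h : q.length ≤ n + 2 * t n
    · simp only [S', h, dite_true]
      exact hSB ⟨q, h⟩ ((hsetB q h).1 hq)
    · simp only [S', h, dite_false]
      have : q ∉ setA P1 MA cA C R := fun h' => hR1 q ⟨h', hq⟩
      simpa using this
  have key := hR2 S' hS'A hS'B z.1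
  -- the two joins agree on short strings
  have hjoin : ∀ s : List Bool, s.length ≤ n + 2 * t n →
      join (C R) S' s = join (C (ext n₀ f L ω)) (extS (n + 2 * t n) S) s := by
    intro s hl
    match s, hl with
    | [], _ => rfl
    | false :: s, hl =>
      refine hagC s ?_
      rw [List.length_cons] at hl
      omega
    | true :: s, hl =>
      rw [List.length_cons] at hl
      have hl' : s.length ≤ n + 2 * t n := by omega
      change S' s = extS (n + 2 * t n) S s
      unfold extS
      simp only [S', hl', dite_true]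
  -- so the reduction gives the same answer
  have hrun : N (join (C R) S') z.1 ↔
      N (join (C (ext n₀ f L ω)) (extS (n + 2 * t n) S)) z.1 := by
    constructor
    · intro h
      obtain ⟨F, -, hF, hF'⟩ := hN.cert _ _ h
      refine hF' _ fun s hs => (hjoin s ?_).symm
      have := hF s hs
      rwa [z.2] at this
    · intro h
      obtain ⟨F, -, hF, hF'⟩ := hN.cert _ _ h
      refine hF' _ fun s hs => hjoin s ?_
      have := hF s hs
      rwa [z.2] at this
  -- the test language
  have htest : z.1 ∈ Test (C R) ↔ ∃ y, Fin.Wit (blk tC h1 h2 z) ω y := by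
    constructor
    · rintro ⟨w, hw, h⟩
      rw [z.2] at hw h
      refine ⟨⟨w, hw⟩, fun j => ?_⟩
      have := h j (Nat.lt_succ_iff.1 j.2)
      rw [qstr_cons, tC.h_eq] at this
      rw [← hω]
      exact this
    · rintro ⟨w, hw⟩
      refine ⟨w.1, by rw [w.2, z.2], fun j hj => ?_⟩
      rw [z.2] at hj
      have := hw ⟨j, Nat.lt_succ_of_le hj⟩
      rw [qstr_cons, tC.h_eq]
      rw [← hω] at this
      exact this
  have htest' : z.1 ∉ Test (C R) ↔ Fin.NoWit (blk tC h1 h2 z) ω := by
    rw [htest]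
    exact not_exists
  exact (hrun.symm.trans key).trans htest'

include tC hN in
/-- the bad sets are null -/
theorem badSet_null (ht : Sub t) : coin (badSet C N MA cA MB cB P1 P0) = 0 := by
  by_contra hne
  obtain ⟨n₀, f, hden⟩ := density _ hne
  have hs : Sub (fun n =>
      8192 * (t n + poly cA (n + 2 * t n) + poly cB (n + 2 * t n) + 1) ^ 3 + 1) := by
    have a1 : Sub (fun n => n + 2 * t n) := sub_add sub_id (sub_mul (sub_const 2) ht)
    have a2 : Sub (fun n => t n + poly cA (n + 2 * t n) + poly cB (n + 2 * t n) + 1) :=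
      sub_add (sub_add (sub_add ht (sub_poly a1 cA)) (sub_poly a1 cB)) (sub_const 1)
    exact sub_add (sub_mul (sub_const 8192) (sub_pow a2 3)) (sub_const 1)
  obtain ⟨n, hn1, hn2⟩ := ((hs 1).and (eventually_ge_atTop n₀)).exists
  rw [pow_one] at hn1
  set L := n₀ + 3 * n + 2 + ((n + 2 * t n) + 2 * poly cA (n + 2 * t n)) +
    ((n + 2 * t n) + 2 * poly cB (n + 2 * t n)) with hL
  have h1 : n₀ ≤ 2 * n := by omega
  have h2 : 3 * n + 1 < L := by omega
  have hA : (n + 2 * t n) + 2 * poly cA (n + 2 * t n) < L := by omega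
  have hB : (n + 2 * t n) + 2 * poly cB (n + 2 * t n) < L := by omega
  have hd := hden L (by omega)
  set g := game tC hN MA cA MB cB P1 P0 f h1 h2 with hg
  have hgood : 20 * Fin.cnt (fun ω => ¬ g.Good ω) ≤ Nat.card (Mid n₀ L → Bool) := by
    refine le_trans (Nat.mul_le_mul_left _ (Fin.cnt_mono ?_)) hd
    intro ω hω hh
    obtain ⟨R, hR, hf, hRω⟩ := hh
    refine hω ?_
    exact game_good tC hN MA cA MB cB P1 P0 h1 h2 hA hB ω R hR hf hRω
  have hc : g.c = t n + poly cA (n + 2 * t n) + poly cB (n + 2 * t n) + 1 := rfl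
  have hc1 : 1 ≤ g.c := by rw [hc]; omega
  have hn1' : 8192 * g.c ^ 3 + 1 ≤ 2 ^ n := by rw [hc]; exact hn1
  have hcard : (Nat.card (Vec n) : ℝ) = ((2 ^ n : ℕ) : ℝ) := by rw [card_vec]
  have hbig : 16 * (g.c : ℝ) ^ 2 ≤ Nat.card (Vec n) := by
    rw [hcard]
    have : 16 * g.c ^ 2 ≤ 2 ^ n := by
      have h3 : g.c ^ 2 * 1 ≤ g.c ^ 2 * g.c := Nat.mul_le_mul_left _ hc1
      have h4 : g.c ^ 3 = g.c ^ 2 * g.c := by ring
      rw [h4] at hn1'
      generalize g.c ^ 2 * g.c = u at *
      generalize g.c ^ 2 = v at *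
      omega
    exact_mod_cast this
  have hJ : 2 ^ Nat.card (_root_.Fin (n + 1)) = 2 * Nat.card (Vec n) := by
    rw [card_vec, Nat.card_eq_fintype_card, Fintype.card_fin, pow_succ, mul_comm]
  have hfin := g.finite_main hc1 hbig hJ hgood
  rw [hcard] at hfin
  have : ((8192 * g.c ^ 3 + 1 : ℕ) : ℝ) ≤ ((2 ^ n : ℕ) : ℝ) := Nat.cast_le.2 hn1'
  push_cast at this hfin
  linarith

end finite

/-- The general theorem, for countably many reductions. -/
theorem main_general {C : Oracle → Oracle} (tC : Tame C) {κ : Type} [Countable κ]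
    (N : κ → Oracle → List Bool → Prop) (t : κ → ℕ → ℕ) (hN : ∀ i, Loc (N i) (t i))
    (ht : ∀ i, Sub (t i)) :
    ∀ᵐ R ∂coin, ∀ A B, DisjointNPPair (C R) A B → ∃ S, Separator A B S ∧
      ∀ i, ∃ x, ¬ (N i (join (C R) S) x ↔ x ∉ Test (C R)) := by
  classical
  let ι : Type := Machine × ℕ × Machine × ℕ × κ × Finset (List Bool) × Finset (List Bool)
  let E : ι → Set Oracle := fun i =>
    badSet C (N i.2.2.2.2.1) i.1 i.2.1 i.2.2.1 i.2.2.2.1 i.2.2.2.2.2.1 i.2.2.2.2.2.2
  have hE : ∀ᵐ R ∂coin, ∀ i : ι, R ∉ E i := by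
    rw [ae_all_iff]
    intro i
    have := badSet_null tC (hN i.2.2.2.2.1) i.1 i.2.1 i.2.2.1 i.2.2.2.1 i.2.2.2.2.2.1
      i.2.2.2.2.2.2 (ht _)
    exact measure_eq_zero_iff_ae_notMem.1 this
  filter_upwards [hE] with R hR
  rintro A B ⟨-, -, ⟨MA, cA, hMA⟩, ⟨MB, cB, hMB⟩, hdis⟩
  by_contra hhard
  -- uniformity
  let D : κ → Oracle → Prop := fun p S => ∀ x, N p (join (C R) S) x ↔ x ∉ Test (C R)
  obtain ⟨p, S₀, F, hS₀, hD⟩ := diag A B hdis D (by
    intro p S hnot
    have hnot' : ∃ x, ¬ (N p (join (C R) S) x ↔ x ∉ Test (C R)) := by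
      by_contra hcon
      exact hnot fun x => by_contra fun hx => hcon ⟨x, hx⟩
    obtain ⟨x, hx⟩ := hnot'
    obtain ⟨G, hG⟩ := (hN p).fin (join (C R) S) x
    refine ⟨G.image List.tail, fun S' hS' hDS' => hx ?_⟩
    rw [← hDS' x]
    refine (hG _ fun s hs => ?_).symm
    match s, hs with
    | [], _ => rfl
    | false :: s, _ => rfl
    | true :: s, hs => exact hS' s (Finset.mem_image_of_mem List.tail hs)) (by
    intro S hS
    by_contra hcon
    refine hhard ⟨S, hS, fun i => ?_⟩
    by_contra hi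
    exact hcon ⟨i, fun x => by_contra fun hx => hi ⟨x, hx⟩⟩)
  have hA : A = NPset (C R) MA cA := Set.ext hMA
  have hB : B = NPset (C R) MB cB := Set.ext hMB
  refine hR (MA, cA, MB, cB, p, F.filter (fun x => S₀ x = true),
    F.filter (fun x => S₀ x = false)) ⟨?_, ?_⟩
  · rintro q ⟨hq1, hq2⟩
    have e1 : S₀ q = true := by
      rcases hq1 with h | h
      · exact hS₀.1 q (hA ▸ h)
      · exact (Finset.mem_filter.1 h).2
    have e2 : S₀ q = false := by
      rcases hq2 with h | h
      · exact hS₀.2 q (hB ▸ h)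
      · exact (Finset.mem_filter.1 h).2
    rw [e1] at e2
    exact absurd e2 (by decide)
  · intro S hSA hSB
    refine hD S ⟨fun x hx => hSA x (Or.inl (hA ▸ hx)), fun x hx => hSB x (Or.inl (hB ▸ hx))⟩ ?_
    intro x hx
    cases hv : S₀ x with
    | true => exact hSA x (Or.inr (Finset.mem_filter.2 ⟨hx, hv⟩))
    | false => exact hSB x (Or.inr (Finset.mem_filter.2 ⟨hx, hv⟩))

/-- **Main theorem.** -/
theorem main {C : Oracle → Oracle} (tC : Tame C) (T : ℕ → ℕ → ℕ) (hT : Subexponential T) :
    ∀ᵐ R ∂coin, StrongESYRel T (C R) := by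
  let κ : Type := Bool × Machine × ℕ
  let N : κ → Oracle → List Bool → Prop := fun i O x =>
    match i with
    | (false, M, c) => ¬ AcceptsIn O M x [] (T c x.length)
    | (true, M, c) =>
      ∃ w : List Bool, w.length ≤ T c x.length ∧ AcceptsIn O M x w (T c x.length)
  have hN : ∀ i : κ, Loc (N i) (T i.2.2) := by
    rintro ⟨_ | _, M, c⟩
    · exact loc_det M (T c)
    · exact loc_nondet M (T c)
  filter_upwards [main_general tC N (fun i => T i.2.2) hN fun i => hT i.2.2] with R hR
  intro A B hAB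
  obtain ⟨S, hS, h⟩ := hR A B hAB
  refine ⟨S, hS, Test (C R), inNP_test (C R), ?_, ?_⟩
  · rintro ⟨M, c, hM⟩
    obtain ⟨x, hx⟩ := h (false, M, c)
    exact hx (not_congr (hM x)).symm
  · rintro ⟨M, c, hM⟩
    obtain ⟨x, hx⟩ := h (true, M, c)
    exact hx (hM x).symm

/-- the strong form implies the conjecture -/
theorem esy_of_strong {O : Oracle} (h : StrongESYRel poly O) : ESYRel O := by
  rintro ⟨A, B, hAB, hhard⟩
  obtain ⟨S, hS, L, hL, h1, -⟩ := h A B hAB
  exact h1 (hhard S hS L hL)

end ESY
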