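import Pool.Agent.Lib.MP_80aaf5_lc.Defs

/-!
# The test language is in `NP`
-/

namespace ESY

/-- interleave `x` and `w`, reversed, onto `acc` -/
def inter : List Bool → List Bool → List Bool → List Bool
  | a :: x, b :: w, acc => inter x w (b :: a :: acc)
  | _, _, acc => acc

/-- the query strings -/
def qstr (x w : List Bool) (j : ℕ) : List Bool := List.replicate (j + 1) true ++ inter x w []

/-- the test language -/
def Test (O : Oracle) : Set (List Bool) :=
  {x | ∃ w : List Bool, w.length = x.length ∧ ∀ j ≤ x.length, O (qstr x w j) = true}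

/-- the verifier -/
def ver : Machine where
  k := 2
  q := 13
  code := ![
    .push 3 true 1,        -- 0
    .pop 0 8 2 3,          -- 1
    .push 2 false 4,       -- 2
    .push 2 true 4,        -- 3
    .pop 1 12 5 6,         -- 4
    .push 2 false 7,       -- 5
    .push 2 true 7,        -- 6
    .push 3 true 1,        -- 7
    .pop 1 9 12 12,        -- 8
    .pop 3 11 12 10,       -- 9
    .push 2 true 13,       -- 10
    .halt true,            -- 11
    .halt false,           -- 12
    .query 2 12 9]         -- 13

/-- configurations of the verifier -/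
def cf (s : Fin 14) (a b c d : List Bool) : Cfg ver := ⟨s, ![a, b, c, d]⟩

theorem upd0 (a b c d e : List Bool) :
    Function.update (![a, b, c, d] : Fin 4 → List Bool) 0 e = ![e, b, c, d] := by
  funext i; fin_cases i <;> rfl
theorem upd1 (a b c d e : List Bool) :
    Function.update (![a, b, c, d] : Fin 4 → List Bool) 1 e = ![a, e, c, d] := by
  funext i; fin_cases i <;> rfl
theorem upd2 (a b c d e : List Bool) :
    Function.update (![a, b, c, d] : Fin 4 → List Bool) 2 e = ![a, b, e, d] := by
  funext i; fin_cases i <;> rfl
theorem upd3 (a b c d e : List Bool) :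
    Function.update (![a, b, c, d] : Fin 4 → List Bool) 3 e = ![a, b, c, e] := by
  funext i; fin_cases i <;> rfl

variable (O : Oracle)

theorem s0 (a b c d : List Bool) : step O ver (cf 0 a b c d) = cf 1 a b c (true :: d) :=
  congrArg (Cfg.mk (M := ver) 1) (upd3 a b c d (true :: d))
theorem s1e (b c d : List Bool) : step O ver (cf 1 [] b c d) = cf 8 [] b c d := rfl
theorem s1f (a b c d : List Bool) : step O ver (cf 1 (false :: a) b c d) = cf 2 a b c d :=
  congrArg (Cfg.mk (M := ver) 2) (upd0 _ b c d a)
theorem s1t (a b c d : List Bool) : step O ver (cf 1 (true :: a) b c d) = cf 3 a b c d :=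
  congrArg (Cfg.mk (M := ver) 3) (upd0 _ b c d a)
theorem s2 (a b c d : List Bool) : step O ver (cf 2 a b c d) = cf 4 a b (false :: c) d :=
  congrArg (Cfg.mk (M := ver) 4) (upd2 a b c d _)
theorem s3 (a b c d : List Bool) : step O ver (cf 3 a b c d) = cf 4 a b (true :: c) d :=
  congrArg (Cfg.mk (M := ver) 4) (upd2 a b c d _)
theorem s4e (a c d : List Bool) : step O ver (cf 4 a [] c d) = cf 12 a [] c d := rfl
theorem s4f (a b c d : List Bool) : step O ver (cf 4 a (false :: b) c d) = cf 5 a b c d :=
  congrArg (Cfg.mk (M := ver) 5) (upd1 a _ c d b)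
theorem s4t (a b c d : List Bool) : step O ver (cf 4 a (true :: b) c d) = cf 6 a b c d :=
  congrArg (Cfg.mk (M := ver) 6) (upd1 a _ c d b)
theorem s5 (a b c d : List Bool) : step O ver (cf 5 a b c d) = cf 7 a b (false :: c) d :=
  congrArg (Cfg.mk (M := ver) 7) (upd2 a b c d _)
theorem s6 (a b c d : List Bool) : step O ver (cf 6 a b c d) = cf 7 a b (true :: c) d :=
  congrArg (Cfg.mk (M := ver) 7) (upd2 a b c d _)
theorem s7 (a b c d : List Bool) : step O ver (cf 7 a b c d) = cf 1 a b c (true :: d) :=
  congrArg (Cfg.mk (M := ver) 1) (upd3 a b c d _)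
theorem s8e (a c d : List Bool) : step O ver (cf 8 a [] c d) = cf 9 a [] c d := rfl
theorem s8c (a : List Bool) (x : Bool) (b c d : List Bool) :
    step O ver (cf 8 a (x :: b) c d) = cf 12 a b c d := by
  cases x
  · exact congrArg (Cfg.mk (M := ver) 12) (upd1 a _ c d b)
  · exact congrArg (Cfg.mk (M := ver) 12) (upd1 a _ c d b)
theorem s9e (a b c : List Bool) : step O ver (cf 9 a b c []) = cf 11 a b c [] := rfl
theorem s9t (a b c d : List Bool) : step O ver (cf 9 a b c (true :: d)) = cf 10 a b c d :=
  congrArg (Cfg.mk (M := ver) 10) (upd3 a b c _ d)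
theorem s10 (a b c d : List Bool) : step O ver (cf 10 a b c d) = cf 13 a b (true :: c) d :=
  congrArg (Cfg.mk (M := ver) 13) (upd2 a b c d _)
theorem s13 (a b c d : List Bool) :
    step O ver (cf 13 a b c d) = cf (if O c = true then 9 else 12) a b c d := rfl
theorem s11 (a b c d : List Bool) : step O ver (cf 11 a b c d) = cf 11 a b c d := rfl
theorem s12 (a b c d : List Bool) : step O ver (cf 12 a b c d) = cf 12 a b c d := rfl

theorem stay12 (n : ℕ) (a b c d : List Bool) :
    (step O ver)^[n] (cf 12 a b c d) = cf 12 a b c d := Function.iterate_fixed (s12 O a b c d) n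

theorem stay11 (n : ℕ) (a b c d : List Bool) :
    (step O ver)^[n] (cf 11 a b c d) = cf 11 a b c d := Function.iterate_fixed (s11 O a b c d) n

/-- phase 2 -/
theorem phase2 (a b : List Bool) (m : ℕ) : ∀ (s : List Bool) (T : ℕ), 3 * m + 1 ≤ T →
    (((step O ver)^[T] (cf 9 a b s (List.replicate m true))).state = 11 ∨
      ((step O ver)^[T] (cf 9 a b s (List.replicate m true))).state = 12) ∧
    (((step O ver)^[T] (cf 9 a b s (List.replicate m true))).state = 11 ↔
      ∀ j < m, O (List.replicate (j + 1) true ++ s) = true) := by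
  induction m with
  | zero =>
    intro s T hT
    obtain ⟨T', rfl⟩ : ∃ T', T = T' + 1 := ⟨T - 1, by omega⟩
    rw [Function.iterate_succ_apply, List.replicate_zero, s9e, stay11]
    refine ⟨Or.inl rfl, ⟨fun _ j hj => absurd hj (Nat.not_lt_zero j), fun _ => rfl⟩⟩
  | succ m ih =>
    intro s T hT
    obtain ⟨T', rfl⟩ : ∃ T', T = T' + 1 + 1 + 1 := ⟨T - 3, by omega⟩
    rw [Function.iterate_succ_apply, Function.iterate_succ_apply, Function.iterate_succ_apply,
      List.replicate_succ, s9t, s10, s13]
    by_cases h : O (true :: s) = true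
    · rw [if_pos h]
      obtain ⟨h1, h2⟩ := ih (true :: s) T' (by omega)
      refine ⟨h1, h2.trans ?_⟩
      have e : ∀ j, List.replicate (j + 1) true ++ true :: s =
          List.replicate (j + 1 + 1) true ++ s := by
        intro j
        rw [List.replicate_succ' (n := j + 1), List.append_assoc]
        rfl
      constructor
      · intro hj j hjm
        cases j with
        | zero => exact h
        | succ j =>
          rw [← e]
          exact hj j (by omega)
      · intro hj j hjm
        rw [e]
        exact hj (j + 1) (by omega)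
    · rw [if_neg h, stay12]
      refine ⟨Or.inr rfl, ⟨fun hh => ?_, fun hh => ?_⟩⟩
      · exact absurd (show (12 : Fin 14) = 11 from hh) (by decide)
      exact absurd (hh 0 (by omega)) h

/-- phase 1, equal lengths -/
theorem phase1 : ∀ (x w s t : List Bool), w.length = x.length →
    (step O ver)^[5 * x.length + 2] (cf 1 x w s t) =
      cf 9 [] [] (inter x w s) (List.replicate x.length true ++ t) := by
  intro x
  induction x with
  | nil =>
    intro w s t h
    have : w = [] := List.length_eq_zero_iff.1 h
    subst this
    rfl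
  | cons a x ih =>
    intro w s t h
    cases w with
    | nil => simp at h
    | cons b w =>
      have hl : w.length = x.length := by simpa using h
      have e : 5 * (a :: x).length + 2 = (5 * x.length + 2) + 1 + 1 + 1 + 1 + 1 := by
        simp only [List.length_cons]; ring
      have h3 : List.replicate (a :: x).length true ++ t =
          List.replicate x.length true ++ true :: t := by
        rw [List.length_cons, List.replicate_succ', List.append_assoc]
        rfl
      rw [e, Function.iterate_succ_apply, Function.iterate_succ_apply,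
        Function.iterate_succ_apply, Function.iterate_succ_apply, Function.iterate_succ_apply, h3]
      cases a <;> cases b <;>
        simp only [s1f, s1t, s2, s3, s4f, s4t, s5, s6, s7] <;> exact ih w _ _ hl

/-- phase 1, different lengths -/
theorem phase1' : ∀ (x w s t : List Bool) (T : ℕ), w.length ≠ x.length →
    5 * x.length + 2 ≤ T → ((step O ver)^[T] (cf 1 x w s t)).state = 12 := by
  intro x
  induction x with
  | nil =>
    intro w s t T h hT
    cases w with
    | nil => simp at h
    | cons b w =>
      obtain ⟨T', rfl⟩ : ∃ T', T = T' + 1 + 1 := ⟨T - 2, by simp at hT; omega⟩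
      rw [Function.iterate_succ_apply, Function.iterate_succ_apply, s1e, s8c, stay12]
      rfl
  | cons a x ih =>
    intro w s t T h hT
    simp only [List.length_cons] at hT
    obtain ⟨T', rfl⟩ : ∃ T', T = T' + 1 + 1 + 1 + 1 + 1 := ⟨T - 5, by omega⟩
    rw [Function.iterate_succ_apply, Function.iterate_succ_apply,
        Function.iterate_succ_apply, Function.iterate_succ_apply, Function.iterate_succ_apply]
    cases w with
    | nil =>
      cases a <;> simp only [s1f, s1t, s2, s3, s4e, s12, stay12] <;> rfl
    | cons b w =>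
      have hl : w.length ≠ x.length := fun hh => h (by simp [hh])
      cases a <;> cases b <;>
        simp only [s1f, s1t, s2, s3, s4f, s4t, s5, s6, s7] <;> exact ih w _ _ T' hl (by omega)

theorem start_ver (x w : List Bool) : start ver x w = cf 0 x w [] [] := by
  unfold start cf
  congr 1
  funext i
  fin_cases i <;> rfl

theorem accepts_ver (x w : List Bool) (T : ℕ) (hT : 8 * x.length + 7 ≤ T) :
    AcceptsIn O ver x w T ↔
      w.length = x.length ∧ ∀ j ≤ x.length, O (qstr x w j) = true := by
  unfold AcceptsIn
  rw [start_ver]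
  obtain ⟨T', rfl⟩ : ∃ T', T = T' + 1 := ⟨T - 1, by omega⟩
  rw [Function.iterate_succ_apply, s0]
  by_cases h : w.length = x.length
  · obtain ⟨T'', rfl⟩ : ∃ T'', T' = T'' + (5 * x.length + 2) := ⟨T' - (5 * x.length + 2), by omega⟩
    rw [Function.iterate_add_apply, phase1 O x w [] [true] h]
    have e : List.replicate x.length true ++ [true] = List.replicate (x.length + 1) true := by
      rw [List.replicate_succ']
    rw [e]
    obtain ⟨h1, h2⟩ := phase2 O [] [] (x.length + 1) (inter x w []) T'' (by omega)
    simp only [h, true_and]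
    have h3 : (∀ j ≤ x.length, O (qstr x w j) = true) ↔
        ∀ j < x.length + 1, O (List.replicate (j + 1) true ++ inter x w []) = true := by
      refine forall_congr' fun j => ?_
      rw [Nat.lt_succ_iff]
      rfl
    rw [h3, ← h2]
    rcases h1 with h1 | h1
    · rw [h1]
      exact ⟨fun _ => rfl, fun _ => rfl⟩
    · rw [h1]
      refine ⟨fun hh => ?_, fun hh => absurd hh (by decide)⟩
      exact absurd (Instr.halt.inj hh) (by decide)
  · rw [phase1' O x w [] [true] T' h (by omega)]
    refine ⟨fun hh => ?_, fun hh => absurd hh.1 h⟩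
    exact absurd (Instr.halt.inj hh) (by decide)

theorem poly15 (n : ℕ) : 8 * n + 7 ≤ poly 15 n := by
  unfold poly
  rcases n with _ | _ | n
  · norm_num
  · norm_num
  · have h1 : (n + 2) ^ 15 = (n + 2) * (n + 2) ^ 14 := by ring
    have h2 : 2 ^ 14 ≤ (n + 2) ^ 14 := Nat.pow_le_pow_left (by omega) 14
    have h3 : (n + 2) * 2 ^ 14 ≤ (n + 2) * (n + 2) ^ 14 := Nat.mul_le_mul_left _ h2
    have h4 : (n + 1 + 1) = n + 2 := rfl
    rw [h4, h1]
    omega

/-- the test language is in NP -/
theorem inNP_test : InNP O (Test O) := by
  refine ⟨ver, 15, fun x => ?_⟩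
  constructor
  · rintro ⟨w, hw, h⟩
    refine ⟨w, ?_, (accepts_ver O x w _ (poly15 _)).2 ⟨hw, h⟩⟩
    have := poly15 x.length
    omega
  · rintro ⟨w, -, h⟩
    obtain ⟨h1, h2⟩ := (accepts_ver O x w _ (poly15 _)).1 h
    exact ⟨w, h1, h2⟩

end ESY
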